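import Pool.Agent.D0H78.QF.Fac

/-!
# Transfer of the integrality and of the independence of `ℓ`
-/

set_option autoImplicit false
set_option linter.unusedSectionVars false
set_option maxHeartbeats 1000000

namespace Pool.Agent.D0H78.QF

open NumberField Filter Topology Pool.Agent.W569.FM Pool.Agent.W401.Cheb Matrix Module Polynomial
open Pool.Agent.R401.Tr5 Pool.Agent.R401.Tr9 Pool.Agent.R401.Tr4 Pool.Agent.R401.Tr10
open Pool.Agent.R401.Sup Pool.Agent.R401.Sup3 IsDedekindDomain Pool.Agent.R401.Img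
open Pool.Agent.D0H32.EF

variable {K : Type} [Field K] [NumberField K] {n m : ℕ}

section alg

variable {L : Type} [Field L] [CharZero L] {r s : ℕ} (A : Matrix (Fin r) (Fin r) L)
  (B : Matrix (Fin s) (Fin s) L) {M : ℕ} (hM : 0 < M) {E : ℤ} {c : ℕ → L}
  (hc : ∀ k, c (k + 2 * M) = E * c k)
  (hAB : ∀ k, 0 < k → (A ^ k).trace - (B ^ k).trace = c k)

include hc hAB in
theorem trace_poly (h : ℤ[X]) : (aeval A (X * (X ^ (2 * M) - C E) * h)).trace =
    (aeval B (X * (X ^ (2 * M) - C E) * h)).trace := by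
  have hgen : ∀ {t : ℕ} (Y : Matrix (Fin t) (Fin t) L) (j : ℕ) (a : ℤ),
      (aeval Y (X * (X ^ (2 * M) - C E) * monomial j a)).trace =
        (a : L) * ((Y ^ (j + 1 + 2 * M)).trace - E * (Y ^ (j + 1)).trace) := by
    intro t Y j a
    have h1 : X * (X ^ (2 * M) - C E) * monomial j a =
        (monomial (j + 1 + 2 * M) a : ℤ[X]) - monomial (j + 1) (E * a) := by
      rw [← C_mul_X_pow_eq_monomial, ← C_mul_X_pow_eq_monomial, ← C_mul_X_pow_eq_monomial, C_mul]
      ring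
    have h2 : ∀ (i : ℕ) (b : ℤ), aeval Y (monomial i b) = (b : L) • Y ^ i := by
      intro i b
      rw [aeval_monomial, Algebra.algebraMap_eq_smul_one, smul_mul_assoc, one_mul]
      ext x y
      rw [Matrix.smul_apply, Matrix.smul_apply, zsmul_eq_mul, smul_eq_mul]
    rw [h1, map_sub, h2, h2, Matrix.trace_sub, Matrix.trace_smul, Matrix.trace_smul, smul_eq_mul,
      smul_eq_mul]
    push_cast
    ring
  induction h using Polynomial.induction_on' with
  | add p q hp hq => rw [mul_add, map_add, map_add, Matrix.trace_add, Matrix.trace_add, hp, hq]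
  | monomial j a =>
    rw [hgen, hgen]
    have h1 := hAB (j + 1 + 2 * M) (by omega)
    have h2 := hAB (j + 1) (by omega)
    rw [hc] at h1
    congr 1
    linear_combination h1 - E * h2

include hM hc hAB in
/-- **A monic integral relation.** -/
theorem exists_rel {f : ℤ[X]} (hf : f.Monic) (hfB : aeval B f = 0) :
    ∃ g : ℤ[X], g.Monic ∧ aeval A g = 0 := by
  set G : ℤ[X] := X * (X ^ (2 * M) - C E) * f with hG
  have hGm : G.Monic := (monic_X.mul (monic_X_pow_sub_C E (by omega))).mul hf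
  have hGB : aeval B G = 0 := by rw [hG, map_mul, hfB, mul_zero]
  have htr : ∀ j : ℕ, ((aeval A G) ^ (j + 1)).trace = 0 := by
    intro j
    have h1 : G ^ (j + 1) = X * (X ^ (2 * M) - C E) * (f * G ^ j) := by
      rw [pow_succ', hG]
      ring
    rw [← map_pow, h1, trace_poly A B hc hAB, ← h1, map_pow, hGB, pow_succ, mul_zero,
      Matrix.trace_zero]
  obtain ⟨k, hk⟩ := Pool.Agent.R401.Burn.isNilpotent_of_trace_pow
    (fun m h1 _ => Nat.cast_ne_zero.2 h1.ne') (Matrix.toLinAlgEquiv' (aeval A G)) (fun j => by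
      rw [← map_pow]
      have h1 := Matrix.trace_toLin'_eq ((aeval A G) ^ (j + 1))
      rw [htr] at h1
      exact h1)
  refine ⟨G ^ k, hGm.pow k, ?_⟩
  rw [map_pow]
  apply Matrix.toLinAlgEquiv'.injective
  rw [map_pow, hk, map_zero]

/-- the characteristic polynomial, from the reversed one -/
theorem exists_monic {P : ℤ[X]} (hP : B.charpolyRev = P.map (Int.castRingHom L)) :
    ∃ f : ℤ[X], f.Monic ∧ aeval B f = 0 := by
  set f : ℤ[X] := ∑ i ∈ Finset.range (s + 1), C (P.coeff (s - i)) * X ^ i with hf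
  have hmap : f.map (Int.castRingHom L) = B.charpoly := by
    refine Polynomial.ext fun i => ?_
    rw [coeff_map, hf, finsetSum_coeff]
    simp only [coeff_C_mul, coeff_X_pow, mul_ite, mul_one, mul_zero]
    rw [Finset.sum_ite_eq]
    split_ifs with hi
    · rw [Finset.mem_range] at hi
      have h1 : B.charpolyRev.coeff (s - i) = B.charpoly.coeff i := by
        rw [← Matrix.reverse_charpoly, coeff_reverse, Matrix.charpoly_natDegree_eq_dim,
          Fintype.card_fin, revAt_le (Nat.sub_le s i), Nat.sub_sub_self (by omega)]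
      rw [← h1, hP, coeff_map]
    · rw [Finset.mem_range] at hi
      rw [coeff_eq_zero_of_natDegree_lt, map_zero]
      rw [Matrix.charpoly_natDegree_eq_dim, Fintype.card_fin]
      omega
  refine ⟨f, ?_, ?_⟩
  · apply Polynomial.monic_of_injective (f := Int.castRingHom L) Int.cast_injective
    rw [hmap]
    exact Matrix.charpoly_monic _
  · have h1 := Matrix.aeval_self_charpoly B
    rw [← hmap, aeval_def, Polynomial.eval₂_map] at h1
    rw [aeval_def, ← h1]
    congr 1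

end alg

section bas

/-- The characteristic polynomial does not depend on the basis. -/
theorem charpolyRev_basis {F : Type} [Field F] {n : ℕ} (G : Matrix (Fin n) (Fin n) F)
    (I : Submodule F (Fin n → F)) {r s : ℕ} (b : Module.Basis (Fin r) F I)
    (b' : Module.Basis (Fin s) F I) (A : Matrix (Fin r) (Fin r) F) (A' : Matrix (Fin s) (Fin s) F)
    (hA : ∀ j, G *ᵥ (b j : Fin n → F) = ∑ i, A i j • (b i : Fin n → F))
    (hA' : ∀ j, G *ᵥ (b' j : Fin n → F) = ∑ i, A' i j • (b' i : Fin n → F)) :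
    A.charpolyRev = A'.charpolyRev := by
  have key : ∀ {t : ℕ} (c : Module.Basis (Fin t) F I) (D : Matrix (Fin t) (Fin t) F),
      (∀ j, G *ᵥ (c j : Fin n → F) = ∑ i, D i j • (c i : Fin n → F)) →
      I.subtype ∘ₗ Matrix.toLin c c D = G.mulVecLin ∘ₗ I.subtype := by
    intro t c D hD
    refine c.ext fun j => ?_
    rw [LinearMap.comp_apply, LinearMap.comp_apply, Matrix.toLin_self, Matrix.mulVecLin_apply,
      Submodule.subtype_apply, Submodule.subtype_apply, hD j]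
    simp
  have h1 := (key b A hA).trans (key b' A' hA').symm
  have h2 : Matrix.toLin b b A = Matrix.toLin b' b' A' := by
    refine LinearMap.ext fun x => ?_
    have h3 := LinearMap.congr_fun h1 x
    exact Subtype.ext h3
  have : Module.Finite F I := inferInstance
  have h4 : A.charpoly = A'.charpoly := by
    have h5 := LinearMap.charpoly_toMatrix (Matrix.toLin b b A) b
    have h6 := LinearMap.charpoly_toMatrix (Matrix.toLin b' b' A') b'
    rw [LinearMap.toMatrix_toLin] at h5 h6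
    rw [h5, h6, h2]
  rw [← Matrix.reverse_charpoly, h4, Matrix.reverse_charpoly]

end bas

section fam

variable {P : Ideal (OO K)} {M : ℕ} {E : ℤ} {c : ℕ → ℚ}

/-- **The transfer of the local factor.** -/
theorem transfer_factor
    (SV : ∀ (ℓ : ℕ) [Fact ℓ.Prime] (r : ℕ), Matrix (Fin r) (Fin r) ℚ_[ℓ] → Prop)
    (SW : ∀ (ℓ : ℕ) [Fact ℓ.Prime] (r : ℕ), Matrix (Fin r) (Fin r) ℚ_[ℓ] → Prop)
    (hexV : ∀ (ℓ : ℕ) [Fact ℓ.Prime], (ℓ : OO K) ∉ P → ∃ r A, SV ℓ r A)
    (hexW : ∀ (ℓ : ℕ) [Fact ℓ.Prime], (ℓ : OO K) ∉ P → ∃ r A, SW ℓ r A)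
    (hP : P.IsMaximal) (hM : 0 < M) (hc : ∀ k, c (k + 2 * M) = E * c k)
    (htr : ∀ (ℓ : ℕ) [Fact ℓ.Prime], (ℓ : OO K) ∉ P → ∀ r s A B, SV ℓ r A → SW ℓ s B →
      ∀ k, 0 < k → (A ^ k).trace - (B ^ k).trace = (c k : ℚ_[ℓ])) (Q : ℤ[X])
    (hQ : ∀ (ℓ : ℕ) [Fact ℓ.Prime], (ℓ : OO K) ∉ P → ∀ s B, SW ℓ s B →
      B.charpolyRev = Q.map (Int.castRingHom ℚ_[ℓ])) :
    ∃ Q' : ℤ[X], ∀ (ℓ : ℕ) [Fact ℓ.Prime], (ℓ : OO K) ∉ P → ∀ r A, SV ℓ r A →
      A.charpolyRev = Q'.map (Int.castRingHom ℚ_[ℓ]) := by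
  classical
  obtain ⟨ℓ₀, hℓ₀, hℓ₀P⟩ := Pool.Agent.R401.Tr6.exists_prime_not_mem hP
  have : Fact ℓ₀.Prime := ⟨hℓ₀⟩
  obtain ⟨r₀, A₀, hA₀⟩ := hexV ℓ₀ hℓ₀P
  obtain ⟨s₀, B₀, hB₀⟩ := hexW ℓ₀ hℓ₀P
  set s : ℕ → ℚ := fun k => match k with
    | 0 => 0
    | k + 1 => tn (fun i => (Q.coeff i : ℚ)) k + c (k + 1) with hs
  have hcoeff : ∀ (ℓ : ℕ) [Fact ℓ.Prime], (ℓ : OO K) ∉ P → ∀ r A, SV ℓ r A →
      ∀ k, A.charpolyRev.coeff k = (cf s k : ℚ_[ℓ]) := by
    intro ℓ _ hℓP r A hA k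
    apply coeff_eq
    intro k
    obtain ⟨t, B, hB⟩ := hexW ℓ hℓP
    have h1 := htr ℓ hℓP r t A B hA hB (k + 1) (Nat.succ_pos k)
    have h2 : (B ^ (k + 1)).trace = (tn (fun i => (Q.coeff i : ℚ)) k : ℚ_[ℓ]) := by
      refine trace_eq_tn B _ (fun i => ?_) k
      rw [hQ ℓ hℓP t B hB, coeff_map]
      simp
    simp only [hs]
    push_cast
    rw [← h2]
    linear_combination h1
  obtain ⟨f, hf, hfB⟩ := exists_monic B₀ (hQ ℓ₀ hℓ₀P s₀ B₀ hB₀)
  obtain ⟨F, hFm, hF0⟩ := exists_rel (L := ℚ_[ℓ₀]) A₀ B₀ hM (E := E) (c := fun k => (c k : ℚ_[ℓ₀]))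
    (fun k => by rw [hc]; push_cast; rfl) (htr ℓ₀ hℓ₀P r₀ s₀ A₀ B₀ hA₀ hB₀) hf hfB
  have hint : ∀ k, ∃ c : ℤ, cf s k = c := by
    intro k
    have h1 := hcoeff ℓ₀ hℓ₀P r₀ A₀ hA₀ k
    have h2 := coeff_charpoly_integral A₀ F hFm hF0
    have h3 : IsIntegral ℤ (A₀.charpolyRev.coeff k) := by
      rw [← Matrix.reverse_charpoly, coeff_reverse]
      exact h2 _
    rw [h1] at h3
    have h4 : IsIntegral ℤ (cf s k) := by
      have h5 : ((cf s k : ℚ) : ℚ_[ℓ₀]) = algebraMap ℚ ℚ_[ℓ₀] (cf s k) := by simp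
      rw [h5] at h3
      exact (isIntegral_algebraMap_iff (algebraMap ℚ ℚ_[ℓ₀]).injective).1 h3
    obtain ⟨c, hc⟩ := IsIntegrallyClosed.isIntegral_iff.1 h4
    exact ⟨c, hc.symm⟩
  have hzero : ∀ k, r₀ < k → cf s k = 0 := by
    intro k hk
    have h1 := hcoeff ℓ₀ hℓ₀P r₀ A₀ hA₀ k
    rw [coeff_eq_zero_of_natDegree_lt (lt_of_le_of_lt (natDegree_charpolyRev A₀) hk)] at h1
    exact_mod_cast h1.symm
  choose d hd using hint
  refine ⟨∑ k ∈ Finset.range (r₀ + 1), C (d k) * X ^ k, ?_⟩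
  intro ℓ _ hℓP r A hA
  refine Polynomial.ext fun k => ?_
  rw [hcoeff ℓ hℓP r A hA k, coeff_map, finsetSum_coeff]
  simp only [coeff_C_mul, coeff_X_pow, mul_ite, mul_one, mul_zero]
  rw [Finset.sum_ite_eq, eq_intCast]
  split_ifs with hk
  · rw [hd]
    norm_cast
  · rw [Finset.mem_range] at hk
    rw [hzero k (by omega)]
    norm_cast

end fam

end Pool.Agent.D0H78.QF
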