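import Pool.Agent.D0H78.QF.Fac

/-!
# Mean values over inertia groups
-/

set_option autoImplicit false
set_option linter.unusedSectionVars false
set_option maxHeartbeats 1000000

namespace Pool.Agent.D0H78.QF

open NumberField Filter Topology Pool.Agent.W569.FM Pool.Agent.W401.Cheb Matrix Module Polynomial
open Pool.Agent.D0H32.EF

theorem mean_quot {G : Type} [Group G] (I H U : Subgroup G) (hHU : H ≤ U)
    (hfin : Finite (I ⧸ H.subgroupOf I)) (F : G → ℚ)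
    (hF : ∀ τ ∈ I, ∀ x ∈ U, F (τ * x) = F τ) :
    (Nat.card (I ⧸ H.subgroupOf I) : ℚ)⁻¹ * ∑ᶠ c : I ⧸ H.subgroupOf I, F ((c.out : I) : G) =
      (Nat.card (I ⧸ U.subgroupOf I) : ℚ)⁻¹ * ∑ᶠ c : I ⧸ U.subgroupOf I, F ((c.out : I) : G) := by
  classical
  set s := H.subgroupOf I with hs
  set t := U.subgroupOf I with ht
  have hst : s ≤ t := fun x hx => hHU hx
  let e := Subgroup.quotientEquivProdOfLE hst
  have hfin2 : Finite ((I ⧸ t) × (t ⧸ s.subgroupOf t)) := Finite.of_equiv _ e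
  have hne : Nonempty (I ⧸ t) := ⟨QuotientGroup.mk 1⟩
  have hne2 : Nonempty (t ⧸ s.subgroupOf t) := ⟨QuotientGroup.mk 1⟩
  have hf1 : Finite (I ⧸ t) := Finite.prod_left (t ⧸ s.subgroupOf t)
  have hf2 : Finite (t ⧸ s.subgroupOf t) := Finite.prod_right (I ⧸ t)
  have := Fintype.ofFinite (I ⧸ s)
  have := Fintype.ofFinite (I ⧸ t)
  have := Fintype.ofFinite (t ⧸ s.subgroupOf t)
  have hval : ∀ c : I ⧸ s, F ((c.out : I) : G) = F (((e c).1.out : I) : G) := by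
    intro c
    have h1 : ((c.out : I) : I ⧸ t) = (e c).1 := by
      conv_rhs => rw [← Quotient.out_eq c]
      rfl
    have h2 : (((e c).1.out : I) : I ⧸ t) = (e c).1 := Quotient.out_eq _
    rw [← h1] at h2
    have h3 := QuotientGroup.eq.1 h2
    rw [Subgroup.mem_subgroupOf] at h3
    have h4 : ((c.out : I) : G) = (((e c).1.out : I) : G) *
        ((((e c).1.out)⁻¹ * c.out : I) : G) := by
      rw [Subgroup.coe_mul, Subgroup.coe_inv, mul_inv_cancel_left]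
    rw [h1] at h3
    rw [h4]
    exact hF _ ((e c).1.out).2 _ h3
  rw [finsum_eq_sum_of_fintype, finsum_eq_sum_of_fintype, Finset.sum_congr rfl fun c _ => hval c,
    Equiv.sum_comp e (fun x : (I ⧸ t) × (t ⧸ s.subgroupOf t) => F ((x.1.out : I) : G)),
    Fintype.sum_prod_type, Nat.card_congr e, Nat.card_prod]
  simp only [Finset.sum_const, Finset.card_univ, nsmul_eq_mul]
  rw [← Finset.mul_sum, Nat.card_eq_fintype_card, Nat.card_eq_fintype_card]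
  have h1 : (Fintype.card (t ⧸ s.subgroupOf t) : ℚ) ≠ 0 := by
    exact_mod_cast Fintype.card_ne_zero
  push_cast
  field_simp

section fam

open Pool.Agent.R401.Tr5 Pool.Agent.R401.Tr9 Pool.Agent.R401.Tr4 Pool.Agent.R401.Tr10
open Pool.Agent.R401.Sup Pool.Agent.R401.Sup3 IsDedekindDomain Pool.Agent.R401.Img

variable {K : Type} [Field K] [NumberField K] {n m : ℕ}
  (V : ∀ (ℓ : ℕ) [Fact ℓ.Prime], GK K →* Matrix (Fin n) (Fin n) ℚ_[ℓ])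
  (hV : ∀ (ℓ : ℕ) [Fact ℓ.Prime], Continuous (V ℓ))
  (W : ∀ (ℓ : ℕ) [Fact ℓ.Prime], GK K →* Matrix (Fin m) (Fin m) ℚ_[ℓ])
  (hW : ∀ (ℓ : ℕ) [Fact ℓ.Prime], Continuous (W ℓ)) (u : ℤ)
  (φ : GK K → ℚ) (U : Subgroup (GK K)) (hUn : U.Normal) (hUo : IsOpen (U : Set (GK K)))
  (hU : ∀ x ∈ U, ∀ y, φ (x * y) = φ y)
  (hφ : ∀ (ℓ : ℕ) [Fact ℓ.Prime] (y : GK K),
    cyc K ℓ ℚ_[ℓ] y ^ u * ((V ℓ y).trace - (W ℓ y).trace) = (φ y : ℚ_[ℓ]))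
  {P : Ideal (OO K)} (hP : P.IsMaximal) {q : ℕ} (hq : 2 ≤ q) {σ : GK K} (hσ : FrobAt q P σ)
  {w : ℤ} (hw : w = 2 * u ∨ ∀ y, φ y = 0)
  (hWBV : ∀ (ℓ : ℕ) [Fact ℓ.Prime], (ℓ : OO K) ∉ P → WB (V ℓ) P q w)
  (hWBW : ∀ (ℓ : ℕ) [Fact ℓ.Prime], (ℓ : OO K) ∉ P → WB (W ℓ) P q w)
  (I : ∀ (ℓ : ℕ) [Fact ℓ.Prime], Submodule ℚ_[ℓ] (Fin n → ℚ_[ℓ]))
  (hI : ∀ (ℓ : ℕ) [Fact ℓ.Prime] (x : Fin n → ℚ_[ℓ]),
    x ∈ I ℓ ↔ ∀ τ, InInertia P τ → V ℓ τ *ᵥ x = x)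
  (J : ∀ (ℓ : ℕ) [Fact ℓ.Prime], Submodule ℚ_[ℓ] (Fin m → ℚ_[ℓ]))
  (hJ : ∀ (ℓ : ℕ) [Fact ℓ.Prime] (x : Fin m → ℚ_[ℓ]),
    x ∈ J ℓ ↔ ∀ τ, InInertia P τ → W ℓ τ *ᵥ x = x)

include hV hW hUn hUo hU hφ hP hq hσ hw hWBV hWBW hI hJ in
/-- **The quotient of the local factors.** -/
theorem quot_U (ℓ : ℕ) [Fact ℓ.Prime] (hℓP : (ℓ : OO K) ∉ P) (r s : ℕ)
    (A : Matrix (Fin r) (Fin r) ℚ_[ℓ]) (B : Matrix (Fin s) (Fin s) ℚ_[ℓ])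
    (hA : MatOn (V ℓ σ⁻¹) (I ℓ) A) (hB : MatOn (W ℓ σ⁻¹) (J ℓ) B) (k : ℕ) (hk : 0 < k) :
    (A ^ k).trace - (B ^ k).trace = (av q u P σ φ U k : ℚ_[ℓ]) := by
  obtain ⟨H₀, hH₀n, hH₀o, htr⟩ := tr_av V hV W hW u φ U hUn hUo hU hφ hP hq hσ hw hWBV
    hWBW I hI J hJ ℓ hℓP
  have ho : IsOpen ((H₀ ⊓ U : Subgroup (GK K)) : Set (GK K)) := by
    rw [Subgroup.coe_inf]
    exact hH₀o.inter hUo
  rw [htr _ inf_le_left inferInstance ho r s A B hA hB k hk]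
  unfold av
  rw [mean_quot (IG P) (H₀ ⊓ U) U inf_le_right (Pool.Agent.R401.Tr6.finQ _ ho)
    (fun τ => φ (σ⁻¹ ^ k * τ))]
  intro τ _ x hx
  have h1 : σ⁻¹ ^ k * (τ * x) = ((σ⁻¹ ^ k * τ) * x * (σ⁻¹ ^ k * τ)⁻¹) * (σ⁻¹ ^ k * τ) := by
    rw [inv_mul_cancel_right]
    group
  change φ (σ⁻¹ ^ k * (τ * x)) = φ (σ⁻¹ ^ k * τ)
  rw [h1, hU _ (hUn.conj_mem x hx _)]

end fam

end Pool.Agent.D0H78.QF
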