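import Pool.Agent.D0H78.QF.Virt
import Pool.Agent.D0H78.QF.Mean
import Pool.Agent.D0H78.QF.Int

/-!
# Local factors of representations with finite image
-/

set_option autoImplicit false
set_option linter.unusedSectionVars false
set_option maxHeartbeats 1000000

namespace Pool.Agent.D0H78.QF

open Matrix Module Polynomial

section fin

variable {G : Type} [Group G] {F : Type} [Field F] [CharZero F] {n : ℕ}
  (ρ : G →* Matrix (Fin n) (Fin n) F) (I U : Subgroup G) (hU : ∀ x ∈ U, ρ x = 1)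
  (hfin : Finite (I ⧸ U.subgroupOf I))

/-- the projector on the vectors which are fixed by `I` -/
noncomputable def prI : Matrix (Fin n) (Fin n) F :=
  ((Nat.card (I ⧸ U.subgroupOf I) : F)⁻¹) •
    ∑ᶠ c : I ⧸ U.subgroupOf I, ρ ((c.out : I) : G)

include hU in
theorem rho_eq {a b : I} (h : (a : I ⧸ U.subgroupOf I) = b) : ρ (a : G) = ρ (b : G) := by
  have h1 := QuotientGroup.eq.1 h
  rw [Subgroup.mem_subgroupOf] at h1
  have h3 : (b : G) = (a : G) * ((a⁻¹ * b : I) : G) := by
    rw [Subgroup.coe_mul, Subgroup.coe_inv, mul_inv_cancel_left]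
  rw [h3, map_mul, hU _ h1, mul_one]

include hU hfin in
theorem mul_prI {τ : G} (hτ : τ ∈ I) : ρ τ * prI ρ I U = prI ρ I U := by
  classical
  have hft : Fintype (I ⧸ U.subgroupOf I) := Fintype.ofFinite _
  unfold prI
  rw [mul_smul_comm, finsum_eq_sum_of_fintype, Finset.mul_sum]
  congr 1
  let t : I := ⟨τ, hτ⟩
  conv_rhs => rw [← Equiv.sum_comp (MulAction.toPerm t : Equiv.Perm (I ⧸ U.subgroupOf I))]
  refine Finset.sum_congr rfl fun c _ => ?_
  rw [← map_mul]
  have h1 : τ * ((c.out : I) : G) = ((t * c.out : I) : G) := rfl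
  rw [h1]
  apply rho_eq ρ I U hU
  rw [MulAction.toPerm_apply]
  have h2 : (((t • c).out : I) : I ⧸ U.subgroupOf I) = t • c := Quotient.out_eq _
  rw [h2]
  conv_rhs => rw [← Quotient.out_eq c]
  rfl

include hfin in
theorem prI_fix (x : Fin n → F) (hx : ∀ τ ∈ I, ρ τ *ᵥ x = x) : prI ρ I U *ᵥ x = x := by
  classical
  have hft : Fintype (I ⧸ U.subgroupOf I) := Fintype.ofFinite _
  unfold prI
  rw [Matrix.smul_mulVec, finsum_eq_sum_of_fintype, Matrix.sum_mulVec]
  have h1 : ∀ c : I ⧸ U.subgroupOf I, ρ ((c.out : I) : G) *ᵥ x = x :=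
    fun c => hx _ c.out.2
  rw [Finset.sum_congr rfl fun c _ => h1 c, Finset.sum_const, Finset.card_univ,
    Nat.card_eq_fintype_card, ← Nat.cast_smul_eq_nsmul F, smul_smul, inv_mul_cancel₀, one_smul]
  have : Nonempty (I ⧸ U.subgroupOf I) := ⟨QuotientGroup.mk 1⟩
  exact_mod_cast Fintype.card_ne_zero

include hU hfin in
theorem trace_fin {E : Submodule F (Fin n → F)} (hE : ∀ x, x ∈ E ↔ ∀ τ ∈ I, ρ τ *ᵥ x = x) {g : G}
    {r : ℕ} {A : Matrix (Fin r) (Fin r) F} (hA : MatOn (ρ g) E A) (k : ℕ) :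
    (A ^ k).trace = (Nat.card (I ⧸ U.subgroupOf I) : F)⁻¹ *
      ∑ᶠ c : I ⧸ U.subgroupOf I, (ρ (g ^ k * ((c.out : I) : G))).trace := by
  classical
  have hft : Fintype (I ⧸ U.subgroupOf I) := Fintype.ofFinite _
  obtain ⟨b, hA⟩ := hA
  rw [Pool.Agent.R401.Tr4.trace_pow (e := prI ρ I U) (I := E) (fun x => by
        rw [hE]
        intro τ hτ
        rw [Matrix.mulVec_mulVec, mul_prI ρ I U hU hfin hτ]) (fun x hx => by
        rw [hE] at hx
        exact prI_fix ρ I U hfin x hx) b hA]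
  unfold prI
  rw [finsum_eq_sum_of_fintype, finsum_eq_sum_of_fintype, mul_smul_comm, Matrix.trace_smul,
    Finset.mul_sum, Matrix.trace_sum, smul_eq_mul]
  congr 1
  refine Finset.sum_congr rfl fun c _ => ?_
  rw [map_mul, map_pow]

include hfin in
theorem trace_fin_sub {m : ℕ} (ρ' : G →* Matrix (Fin m) (Fin m) F) (hU : ∀ x ∈ U, ρ x = 1)
    (hU' : ∀ x ∈ U, ρ' x = 1) (φ : G → ℚ) (hφ : ∀ g, (ρ g).trace - (ρ' g).trace = (φ g : F))
    {E : Submodule F (Fin n → F)} (hE : ∀ x, x ∈ E ↔ ∀ τ ∈ I, ρ τ *ᵥ x = x)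
    {E' : Submodule F (Fin m → F)} (hE' : ∀ x, x ∈ E' ↔ ∀ τ ∈ I, ρ' τ *ᵥ x = x) {g : G}
    {r s : ℕ} {A : Matrix (Fin r) (Fin r) F} (hA : MatOn (ρ g) E A)
    {A' : Matrix (Fin s) (Fin s) F} (hA' : MatOn (ρ' g) E' A') (k : ℕ) :
    (A ^ k).trace - (A' ^ k).trace = (((Nat.card (I ⧸ U.subgroupOf I) : ℚ)⁻¹ *
      ∑ᶠ c : I ⧸ U.subgroupOf I, φ (g ^ k * ((c.out : I) : G)) : ℚ) : F) := by
  classical
  have hft : Fintype (I ⧸ U.subgroupOf I) := Fintype.ofFinite _
  rw [trace_fin ρ I U hU hfin hE hA, trace_fin ρ' I U hU' hfin hE' hA', ← mul_sub,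
    finsum_eq_sum_of_fintype, finsum_eq_sum_of_fintype, finsum_eq_sum_of_fintype,
    ← Finset.sum_sub_distrib]
  push_cast
  congr 1
  exact Finset.sum_congr rfl fun c _ => hφ _

end fin

section tw

variable {G : Type} [Group G] {F F' : Type} [Field F] [Field F'] {n : ℕ}

/-- a twist, and an extension of scalars -/
noncomputable def tw (χ : G →* F) (e : F →+* F') (ρ : G →* Matrix (Fin n) (Fin n) F) :
    G →* Matrix (Fin n) (Fin n) F' where
  toFun g := (χ g • ρ g).map e
  map_one' := by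
    rw [map_one, map_one, one_smul]
    exact map_one (e.mapMatrix (m := Fin n))
  map_mul' x y := by
    have h1 := map_mul (e.mapMatrix (m := Fin n)) (χ x • ρ x) (χ y • ρ y)
    rw [map_mul, map_mul]
    have h2 : (χ x * χ y) • (ρ x * ρ y) = (χ x • ρ x) * (χ y • ρ y) := by
      rw [smul_mul_smul_comm]
    rw [h2]
    exact h1

theorem trace_tw (χ : G →* F) (e : F →+* F') (ρ : G →* Matrix (Fin n) (Fin n) F) (g : G) :
    (tw χ e ρ g).trace = e (χ g * (ρ g).trace) := by
  change ((χ g • ρ g).map e).trace = _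
  rw [← smul_eq_mul, ← Matrix.trace_smul, Matrix.trace, Matrix.trace, map_sum]
  rfl

end tw

section poly

theorem rev_eq {L : Type} [Field L] [CharZero L] {ι κ : Type} [Fintype ι] [DecidableEq ι]
    [Fintype κ] [DecidableEq κ] (A : Matrix ι ι L) (B : Matrix κ κ L)
    (h : ∀ k, 0 < k → (A ^ k).trace = (B ^ k).trace) : A.charpolyRev = B.charpolyRev := by
  refine Polynomial.ext fun k => ?_
  induction k using Nat.strong_induction_on with
  | _ k ih =>
    rcases k with _ | k
    · rw [coeff_zero_eq_eval_zero, coeff_zero_eq_eval_zero, Matrix.eval_charpolyRev,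
        Matrix.eval_charpolyRev]
    · have hk : ((k : L) + 1) ≠ 0 := by exact_mod_cast Nat.succ_ne_zero k
      refine mul_right_cancel₀ hk ?_
      rw [Pool.Agent.TH658.Eq.newton, Pool.Agent.TH658.Eq.newton]
      congr 1
      refine Finset.sum_congr rfl fun p hp => ?_
      have h3 := (Finset.HasAntidiagonal.mem_antidiagonal.mp hp)
      rw [ih p.1 (by omega), h _ (Nat.succ_pos _)]

theorem rev_blocks {L : Type} [Field L] {ι κ : Type} [Fintype ι] [DecidableEq ι]
    [Fintype κ] [DecidableEq κ] (A : Matrix ι ι L) (B : Matrix κ κ L) :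
    (fromBlocks A 0 0 B).charpolyRev = A.charpolyRev * B.charpolyRev := by
  unfold Matrix.charpolyRev
  have h1 : (1 : Matrix (ι ⊕ κ) (ι ⊕ κ) L[X]) - (X : L[X]) • (fromBlocks A 0 0 B).map C =
      fromBlocks (1 - (X : L[X]) • A.map C) 0 0 (1 - (X : L[X]) • B.map C) := by
    rw [← fromBlocks_one, fromBlocks_map, fromBlocks_smul, sub_eq_add_neg, fromBlocks_neg,
      fromBlocks_add]
    congr 1 <;> ext i j <;> simp
  rw [h1, Matrix.det_fromBlocks_zero₂₁]

theorem rev_smul {L : Type} [Field L] {ι : Type} [Fintype ι] [DecidableEq ι] (A : Matrix ι ι L)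
    (c : L) : (c • A).charpolyRev = A.charpolyRev.comp (C c * X) := by
  unfold Matrix.charpolyRev
  have h1 : (1 - (X : L[X]) • A.map C).det.comp (C c * X) =
      (compRingHom (C c * X)) (1 - (X : L[X]) • A.map C).det := rfl
  rw [h1, RingHom.map_det]
  congr 1
  refine Matrix.ext fun i j => ?_
  simp only [RingHom.mapMatrix_apply, Matrix.map_apply, Matrix.sub_apply, Matrix.smul_apply,
    smul_eq_mul, coe_compRingHom_apply, sub_comp, mul_comp, X_comp, C_comp, Matrix.one_apply]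
  split_ifs
  · rw [one_comp, C_mul]
    ring
  · rw [zero_comp, C_mul]
    ring

theorem rev_map {L L' : Type} [Field L] [Field L'] {ι : Type} [Fintype ι] [DecidableEq ι]
    (A : Matrix ι ι L) (e : L →+* L') : (A.map e).charpolyRev = A.charpolyRev.map e := by
  unfold Matrix.charpolyRev
  have h1 : (1 - (X : L[X]) • A.map C).det.map e =
      (mapRingHom e) (1 - (X : L[X]) • A.map C).det := rfl
  rw [h1, RingHom.map_det]
  congr 1
  refine Matrix.ext fun i j => ?_
  simp only [RingHom.mapMatrix_apply, Matrix.map_apply, Matrix.sub_apply, Matrix.smul_apply,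
    smul_eq_mul, coe_mapRingHom, Polynomial.map_sub, Polynomial.map_mul, map_X, map_C,
    Matrix.one_apply]
  split_ifs
  · rw [Polynomial.map_one]
  · rw [Polynomial.map_zero]

/-- **From the traces of the powers to the polynomials.** -/
theorem factor_eq {L : Type} [Field L] [CharZero L] {a b r s : ℕ} (e : L →+* ℂ)
    (A : Matrix (Fin a) (Fin a) L) (B : Matrix (Fin b) (Fin b) L) (D : Matrix (Fin r) (Fin r) ℂ)
    (D' : Matrix (Fin s) (Fin s) ℂ) (c : ℂ)
    (h : ∀ k, 0 < k → e ((A ^ k).trace - (B ^ k).trace) = c ^ k * ((D ^ k).trace - (D' ^ k).trace)) :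
    A.charpolyRev.map e * D'.charpolyRev.comp (C c * X) =
      B.charpolyRev.map e * D.charpolyRev.comp (C c * X) := by
  rw [← rev_smul, ← rev_smul, ← rev_map, ← rev_map, ← rev_blocks, ← rev_blocks]
  apply rev_eq
  intro k hk
  have htb : ∀ {i j : ℕ} (M : Matrix (Fin i) (Fin i) ℂ) (N : Matrix (Fin j) (Fin j) ℂ),
      (fromBlocks M 0 0 N).trace = M.trace + N.trace := by
    intro i j M N
    simp [Matrix.trace, Fintype.sum_sum_type]
  rw [fromBlocks_diagonal_pow, fromBlocks_diagonal_pow, htb, htb,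
    _root_.smul_pow, _root_.smul_pow, Matrix.trace_smul, Matrix.trace_smul, smul_eq_mul,
    smul_eq_mul]
  have h1 : ∀ {t : ℕ} (Z : Matrix (Fin t) (Fin t) L), ((Z.map e) ^ k).trace = e (Z ^ k).trace := by
    intro t Z
    have h2 : (Z.map e) ^ k = (Z ^ k).map e := (map_pow (e.mapMatrix (m := Fin t)) Z k).symm
    rw [h2, Matrix.trace, Matrix.trace, map_sum]
    rfl
  have h3 := h k hk
  rw [map_sub] at h3
  rw [h1, h1]
  linear_combination h3

end poly

end Pool.Agent.D0H78.QF
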