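import Pool.Agent.R401.Tr7

/-!
# Divisible differences: reduction to finitely many values (with the bound of Deligne)
-/

set_option autoImplicit false
set_option maxHeartbeats 1000000

namespace Pool.Agent.D0H78.QF

open NumberField Filter Topology IsDedekindDomain Pool.Agent.W401.Cheb Pool.Agent.R401.Eng
open Pool.Agent.R401.Sup2 Pool.Agent.R401.Sup3

variable {K : Type} [Field K] [NumberField K]

theorem sq_fin (d : ℕ) (hd : 0 < d) (M : ℕ) :
    {ξ : ℚ | ∃ k : ℕ, k ≤ M ∧ (d : ℚ) * ξ ^ 2 = k}.Finite := by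
  have h1 : {ξ : ℚ | ∃ k : ℕ, k ≤ M ∧ (d : ℚ) * ξ ^ 2 = k} =
      ⋃ k ∈ Set.Iic M, {ξ : ℚ | (d : ℚ) * ξ ^ 2 = k} := by
    ext ξ
    simp
  rw [h1]
  refine (Set.finite_Iic M).biUnion fun k _ => ?_
  by_cases hex : ∃ ξ₀ : ℚ, (d : ℚ) * ξ₀ ^ 2 = k
  · obtain ⟨ξ₀, h0⟩ := hex
    refine (Set.toFinite {ξ₀, -ξ₀}).subset ?_
    intro ξ hξ
    have h2 : (d : ℚ) * ξ ^ 2 = (d : ℚ) * ξ₀ ^ 2 := by
      rw [h0]
      exact hξ
    have h3 : ξ ^ 2 = ξ₀ ^ 2 := mul_left_cancel₀ (by exact_mod_cast hd.ne') h2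
    rcases sq_eq_sq_iff_eq_or_eq_neg.1 h3 with h4 | h4
    · exact Or.inl h4
    · exact Or.inr h4
  · have h2 : {ξ : ℚ | (d : ℚ) * ξ ^ 2 = k} = ∅ := by
      ext ξ
      constructor
      · intro h
        exact absurd ⟨ξ, h⟩ hex
      · intro h
        exact absurd h (Set.notMem_empty ξ)
    rw [h2]
    exact Set.finite_empty

/-- **The reduction.** -/
theorem reduceC {κ : Type} (a : HeightOneSpectrum (𝓞 K) → ℚ)
    (β : κ → HeightOneSpectrum (𝓞 K) → ℚ) (B : Set (HeightOneSpectrum (𝓞 K))) (w : ℕ) (C : ℝ)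
    (hC : ∀ v, v ∉ B → ∀ j, ((a v - β j v : ℚ) : ℝ) ^ 2 ≤ C * (Ideal.absNorm v.asIdeal : ℝ) ^ w)
    {d : ℕ} (hd : 0 < d) :
    ∃ (u : ℕ) (X : Finset ℚ) (Z : HeightOneSpectrum (𝓞 K) → Prop), (w = 2 * u ∨ X = {0}) ∧
      Tendsto (dens Z) atTop (𝓝 0) ∧ ∀ v, v ∉ B →
        (∃ j, ∃ k : ℤ, (d : ℚ) * (a v - β j v) ^ 2 = (Ideal.absNorm v.asIdeal : ℚ) ^ w * k) →
        (∃ j, ∃ ξ ∈ X, a v = β j v + ξ * (Ideal.absNorm v.asIdeal : ℚ) ^ u) ∨ Z v := by
  classical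
  have hN0 : ∀ v : HeightOneSpectrum (𝓞 K), 0 < Ideal.absNorm v.asIdeal := fun v =>
    Nat.pos_of_ne_zero (fun h0 => v.ne_bot (Ideal.absNorm_eq_zero_iff.1 h0))
  have hdQ : (0 : ℚ) < d := by exact_mod_cast hd
  have hdR : (0 : ℝ) < d := by exact_mod_cast hd
  set M : ℕ := ⌊(d : ℝ) * |C|⌋₊ with hM
  -- the integers are bounded
  have hk : ∀ v, v ∉ B → ∀ j, ∀ k : ℤ,
      (d : ℚ) * (a v - β j v) ^ 2 = (Ideal.absNorm v.asIdeal : ℚ) ^ w * k →
      ∃ k' : ℕ, (k : ℤ) = k' ∧ k' ≤ M := by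
    intro v hv j k h
    have hNQ : (0 : ℚ) < (Ideal.absNorm v.asIdeal : ℚ) ^ w := by
      have : (0 : ℚ) < Ideal.absNorm v.asIdeal := by exact_mod_cast hN0 v
      positivity
    have hNR : (0 : ℝ) < (Ideal.absNorm v.asIdeal : ℝ) ^ w := by
      have : (0 : ℝ) < Ideal.absNorm v.asIdeal := by exact_mod_cast hN0 v
      positivity
    have hk0 : (0 : ℚ) ≤ k := by
      by_contra hcon
      rw [not_le] at hcon
      have h1 := mul_neg_of_pos_of_neg hNQ hcon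
      rw [← h] at h1
      have h2 : (0 : ℚ) ≤ d * (a v - β j v) ^ 2 := by positivity
      linarith
    have hk0' : 0 ≤ k := by exact_mod_cast hk0
    obtain ⟨k', rfl⟩ := Int.eq_ofNat_of_zero_le hk0'
    refine ⟨k', rfl, ?_⟩
    rw [hM]
    apply Nat.le_floor
    have h1 : (d : ℝ) * ((a v - β j v : ℚ) : ℝ) ^ 2 =
        (Ideal.absNorm v.asIdeal : ℝ) ^ w * (k' : ℝ) := by
      exact_mod_cast congrArg (Rat.cast : ℚ → ℝ) h
    have h2 := hC v hv j
    have h3 : (Ideal.absNorm v.asIdeal : ℝ) ^ w * (k' : ℝ) ≤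
        (Ideal.absNorm v.asIdeal : ℝ) ^ w * (d * |C|) := by
      rw [← h1]
      calc (d : ℝ) * ((a v - β j v : ℚ) : ℝ) ^ 2
          ≤ d * (C * (Ideal.absNorm v.asIdeal : ℝ) ^ w) := mul_le_mul_of_nonneg_left h2 hdR.le
        _ ≤ d * (|C| * (Ideal.absNorm v.asIdeal : ℝ) ^ w) :=
            mul_le_mul_of_nonneg_left (mul_le_mul_of_nonneg_right (le_abs_self C) hNR.le) hdR.le
        _ = _ := by ring
    exact le_of_mul_le_mul_left h3 hNR
  rcases Nat.even_or_odd' w with ⟨u, hw | hw⟩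
  · -- even weight
    refine ⟨u, (sq_fin d hd M).toFinset, fun _ => False, Or.inl hw, ?_, ?_⟩
    · exact dens_fin _ (by simp)
    · rintro v hv ⟨j, k, h⟩
      left
      obtain ⟨k', hk1, hk2⟩ := hk v hv j k h
      have hNQ : (0 : ℚ) < (Ideal.absNorm v.asIdeal : ℚ) ^ u := by
        have : (0 : ℚ) < Ideal.absNorm v.asIdeal := by exact_mod_cast hN0 v
        positivity
      refine ⟨j, (a v - β j v) / (Ideal.absNorm v.asIdeal : ℚ) ^ u, ?_, ?_⟩
      · rw [Set.Finite.mem_toFinset]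
        refine ⟨k', hk2, ?_⟩
        have hN2 : (Ideal.absNorm v.asIdeal : ℚ) ^ (2 * u) ≠ 0 := by
          have : (Ideal.absNorm v.asIdeal : ℚ) ≠ 0 := by exact_mod_cast (hN0 v).ne'
          exact pow_ne_zero _ this
        rw [div_pow, ← mul_div_assoc, h, hw, hk1, ← pow_mul, mul_comm u 2, mul_comm, mul_div_assoc,
          div_self hN2, mul_one]
        push_cast
        rfl
      · field_simp
        ring
  · -- odd weight
    have hodd : ¬ (2 : ℤ) ∣ ((w : ℕ) : ℤ) := by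
      rw [hw]
      omega
    refine ⟨0, {0}, fun v => ∃ k ∈ Finset.Icc 1 M, ∃ x : ℚ,
      x ^ 2 = (Ideal.absNorm v.asIdeal : ℚ) ^ ((w : ℕ) : ℤ) * ((k : ℚ) / d), Or.inr rfl, ?_, ?_⟩
    · refine squeeze_zero (g := fun N => ∑ k ∈ Finset.Icc 1 M,
        dens (fun v : HeightOneSpectrum (𝓞 K) => ∃ x : ℚ,
          x ^ 2 = (Ideal.absNorm v.asIdeal : ℚ) ^ ((w : ℕ) : ℤ) * ((k : ℚ) / d)) N) ?_ ?_ ?_
      · intro N
        unfold dens
        positivity
      · intro N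
        exact dens_biUnion (Finset.Icc 1 M) (fun k v => ∃ x : ℚ,
          x ^ 2 = (Ideal.absNorm v.asIdeal : ℚ) ^ ((w : ℕ) : ℤ) * ((k : ℚ) / d)) N
      · rw [← Finset.sum_const_zero (s := Finset.Icc 1 M)]
        refine tendsto_finsetSum _ fun k hk1 => ?_
        refine dens_odd (K := K) ℚ (c := (k : ℚ) / d) ?_ hodd
        have h1 : 1 ≤ k := (Finset.mem_Icc.1 hk1).1
        have h2 : (0 : ℚ) < k := by exact_mod_cast h1
        positivity
    · rintro v hv ⟨j, k, h⟩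
      obtain ⟨k', hk1, hk2⟩ := hk v hv j k h
      rcases Nat.eq_zero_or_pos k' with h0 | h0
      · left
        refine ⟨j, 0, Finset.mem_singleton_self 0, ?_⟩
        rw [hk1, h0, Nat.cast_zero, Int.cast_zero, mul_zero] at h
        have h1 := (mul_eq_zero.1 h).resolve_left hdQ.ne'
        have h2 : a v - β j v = 0 := by
          exact pow_eq_zero_iff (two_ne_zero) |>.1 h1
        rw [zero_mul, add_zero]
        exact sub_eq_zero.1 h2
      · right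
        refine ⟨k', Finset.mem_Icc.2 ⟨h0, hk2⟩, a v - β j v, ?_⟩
        rw [zpow_natCast, ← mul_div_assoc, eq_div_iff hdQ.ne', mul_comm, h, hk1]
        push_cast
        rfl

end Pool.Agent.D0H78.QF
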