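import Pool.Agent.D0H78.FM.Conn
import Pool.Agent.D0H78.QF.RedC

/-!
# Divisible differences at a set of places of positive density: rational differences
-/

set_option autoImplicit false
set_option linter.unusedSectionVars false
set_option maxHeartbeats 1000000

namespace Pool.Agent.D0H78.QF

open NumberField Filter Topology IsDedekindDomain Pool.Agent.W401.Cheb Pool.Agent.R401.Eng
open Pool.Agent.R401.Sup Pool.Agent.R401.Sup2 Pool.Agent.R401.Sup3 Module Matrix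
open Pool.Agent.D0H32.EF Pool.Agent.D0H78.FM

variable {K : Type} [Field K] [NumberField K] {κ ι : Type} [Fintype κ] [Fintype ι] {n : ℕ}
  {m : ι → ℕ} {p : ℕ} [Fact p.Prime]

/-- **One prime, divisible differences, positive density.** -/
theorem conn_primeD (V : GK K →* Matrix (Fin n) (Fin n) ℚ_[p]) (hV : Continuous V)
    (W : ∀ i, GK K →* Matrix (Fin (m i)) (Fin (m i)) ℚ_[p]) (hW : ∀ i, Continuous (W i))
    (B : Set (HeightOneSpectrum (𝓞 K))) (hB : B.Finite) (c : κ → ι → ℚ)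
    (δ : κ → HeightOneSpectrum (𝓞 K) → ℚ)
    (hDfrob : ∀ v, v ∉ B → (p : 𝓞 K) ∉ v.asIdeal → ∀ g, IsFrob v g → ∀ j,
      Df V W c j g = (δ j v : ℚ_[p]))
    (G₀ : Subgroup (GK K)) (hG₀n : G₀.Normal) (hG₀o : IsOpen (G₀ : Set (GK K))) {θ : ℝ}
    (hθ : θ * G₀.index < 1)
    (hconn : ∀ U : Subgroup (GK K), U ≤ G₀ → U.Normal → IsOpen (U : Set (GK K)) →
      ∀ g ∈ G₀, ((V g, fun i => W i g) : Matrix (Fin n) (Fin n) ℚ_[p] ×
        (∀ i, Matrix (Fin (m i)) (Fin (m i)) ℚ_[p])) ∈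
        Submodule.span ℚ_[p] ((fun u => (V u, fun i => W i u)) '' (U : Set (GK K))))
    (w : ℕ) (C : ℝ)
    (hC : ∀ v, v ∉ B → ∀ j, ((δ j v : ℚ) : ℝ) ^ 2 ≤
      C * (Ideal.absNorm v.asIdeal : ℝ) ^ w) {d : ℕ} (hd : 0 < d)
    (hfreq : ∃ᶠ N : ℕ in atTop, dens (fun v : HeightOneSpectrum (𝓞 K) => ∀ j, ¬ ∃ k : ℤ,
      (d : ℚ) * δ j v ^ 2 = (Ideal.absNorm v.asIdeal : ℚ) ^ w * k) N ≤ θ) :
    ∃ (u : ℕ) (U : Subgroup (GK K)) (j : GK K → κ) (ξ : GK K → ℚ),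
      (w = 2 * u ∨ ∀ g, ξ g = 0) ∧ U.Normal ∧ IsOpen (U : Set (GK K)) ∧
      (∀ g, ∀ x ∈ U, j (g * x) = j g ∧ ξ (g * x) = ξ g) ∧
      ∀ g, (V g).trace = ∑ i, (c (j g) i : ℚ_[p]) * (W i g).trace +
        (ξ g : ℚ_[p]) * ch p (u : ℤ) g := by
  classical
  obtain ⟨u, X, Z, hu, hZ, hred⟩ := reduceC (fun _ => 0) (fun j v => -δ j v) B w C (by
    intro v hv j
    rw [zero_sub, neg_neg]
    exact hC v hv j) hd
  set χ : GK K →* ℚ_[p] := cyc K p ℚ_[p] with hχ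
  have hχne : ∀ g, χ g ≠ 0 := fun g => c_ne _ g
  have hind : (0 : ℝ) < G₀.index := by
    have hfi : Finite (GK K ⧸ G₀) := Subgroup.quotient_finite_of_isOpen _ hG₀o
    have : G₀.FiniteIndex := Subgroup.finiteIndex_of_finite_quotient
    exact_mod_cast Nat.pos_of_ne_zero this.index_ne_zero
  set M : ℝ := ((G₀.index : ℕ) : ℝ) with hM
  set ε : ℝ := (1 - θ * M) / (4 * (M + 1)) with hε
  have hε0 : 0 < ε := div_pos (by linarith) (by positivity)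
  have hθε : (θ + (ε + ε)) * M < 1 := by
    have h1 : (ε + ε) * (M + 1) = (1 - θ * M) / 2 := by
      rw [hε]
      field_simp
      ring
    have h2 : (θ + (ε + ε)) * M = θ * M + (ε + ε) * (M + 1) - (ε + ε) := by ring
    rw [h2, h1]
    linarith
  have hSfin : {v : HeightOneSpectrum (𝓞 K) | v ∈ B ∨ (p : 𝓞 K) ∈ v.asIdeal}.Finite :=
    hB.union (Pool.Agent.W352.ChAbs.over_le p (Fact.out : p.Prime)).1
  -- a relation on a small coset in every coset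
  have hpos := coset_pos (F := ℚ_[p]) (κ := κ × {ξ : ℚ // ξ ∈ X})
    (M := (Matrix (Fin n) (Fin n) ℚ_[p] × (∀ i, Matrix (Fin (m i)) (Fin (m i)) ℚ_[p])) × ℚ_[p])
    (fun k g => Df V W c k.1 g - ((k.2 : ℚ) : ℚ_[p]) * χ g ^ u)
    (fun k => (continuous_Df V W c hV hW k.1).sub
      (continuous_const.mul ((continuous_cyc K p ℚ_[p]).pow u)))
    (by
      intro k x y
      rw [Df_comm, map_mul, map_mul, mul_comm (χ x)])
    (fun x => (Rf V W x, χ x ^ u))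
    (fun k g => (Lf V W c k.1 g).comp (LinearMap.fst ℚ_[p] _ _) -
      (((k.2 : ℚ) : ℚ_[p]) * χ g ^ u) • LinearMap.snd ℚ_[p] _ _)
    (by
      intro k g x
      rw [LinearMap.sub_apply, LinearMap.comp_apply, LinearMap.smul_apply, LinearMap.fst_apply,
        LinearMap.snd_apply, ← Df_eq, map_mul, mul_pow, smul_eq_mul, mul_assoc])
    G₀ hG₀n hG₀o hθε (by
      have hBd := (dens_fin (fun v : HeightOneSpectrum (𝓞 K) => v ∈ B ∨ (p : 𝓞 K) ∈ v.asIdeal)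
        hSfin).eventually (ge_mem_nhds hε0)
      have hZd := hZ.eventually (ge_mem_nhds hε0)
      refine (hfreq.and_eventually (hBd.and hZd)).mono ?_
      rintro N ⟨h1, h2, h3⟩
      refine (dens_le (Q := fun v => (∀ j, ¬ ∃ k : ℤ,
        (d : ℚ) * δ j v ^ 2 = (Ideal.absNorm v.asIdeal : ℚ) ^ w * k) ∨
        ((v ∈ B ∨ (p : 𝓞 K) ∈ v.asIdeal) ∨ Z v)) ?_ N).trans ((card_or _ _ N).trans
          (add_le_add h1 ((card_or _ _ N).trans (add_le_add h2 h3))))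
      rintro v ⟨g, hg, hne⟩
      by_cases hv : v ∈ B ∨ (p : 𝓞 K) ∈ v.asIdeal
      · exact Or.inr (Or.inl hv)
      · push Not at hv
        by_cases hdiv : ∃ j, ∃ k : ℤ, (d : ℚ) * δ j v ^ 2 =
            (Ideal.absNorm v.asIdeal : ℚ) ^ w * k
        · rcases hred v hv.1 (by
            obtain ⟨j, k, hjk⟩ := hdiv
            exact ⟨j, k, by rw [zero_sub, neg_neg]; exact hjk⟩) with ⟨j, ξ, hξ, h4⟩ | h4
          · exfalso
            refine hne (j, ⟨ξ, hξ⟩) ?_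
            change Df V W c j g - (ξ : ℚ_[p]) * χ g ^ u = 0
            have h5 : δ j v = ξ * (Ideal.absNorm v.asIdeal : ℚ) ^ u := by linarith
            rw [hDfrob v hv.1 hv.2 g hg, h5, hχ, cyc_frob p ℚ_[p] hv.2 hg]
            push_cast
            ring
          · exact Or.inr (Or.inr h4)
        · push Not at hdiv
          left
          intro j ⟨k, hk⟩
          exact hdiv j k hk)
  -- the relations
  have key : ∀ x : GK K, ∃ (j : κ) (U' : Subgroup (GK K)), U' ≤ G₀ ∧ U'.Normal ∧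
      IsOpen (U' : Set (GK K)) ∧ ∀ y, x⁻¹ * y ∈ G₀ →
        (∀ z ∈ U', Df V W c j (y * z) = χ z ^ u * Df V W c j y) ∧
        ∃ s : ℚ, (w = 2 * u ∨ s = 0) ∧ Df V W c j y = (s : ℚ_[p]) * χ y ^ u := by
    intro x
    obtain ⟨⟨j, ξ, hξ⟩, g', hg', U', hU'G, hU'n, hU'o, hU'z⟩ := hpos x
    refine ⟨j, U', hU'G, hU'n, hU'o, ?_⟩
    intro y hy
    have hgy : g'⁻¹ * y ∈ G₀ := by
      have h2 : g'⁻¹ * y = (x⁻¹ * g')⁻¹ * (x⁻¹ * y) := by group
      rw [h2]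
      exact G₀.mul_mem (G₀.inv_mem hg') hy
    have hspan : Rf V W (g'⁻¹ * y) ∈ Submodule.span ℚ_[p] (Rf V W '' (U' : Set (GK K))) := by
      have h1 := hconn U' hU'G hU'n hU'o (g'⁻¹ * y)⁻¹ (G₀.inv_mem hgy)
      refine Submodule.span_mono ?_ h1
      rintro _ ⟨t, ht, rfl⟩
      refine ⟨t⁻¹, U'.inv_mem ht, ?_⟩
      unfold Rf
      simp only [inv_inv]
    obtain ⟨h1, h2⟩ := spread V W c χ j (ξ : ℚ_[p]) g' U' u
      (fun t ht => sub_eq_zero.1 (hU'z t ht)) y hspan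
    refine ⟨h1, ?_⟩
    rcases hu with hu | hu
    · obtain ⟨v, hv, γ, hγ, hyγ⟩ := Pool.Agent.R401.Tr2.exists_frob U' hU'o y hSfin
      obtain ⟨hvB, hvp⟩ := not_or.1 hv
      have h3 := h1 _ hyγ
      rw [mul_inv_cancel_left, hDfrob v hvB hvp γ hγ] at h3
      have h4 : χ γ = (Ideal.absNorm v.asIdeal : ℚ_[p]) := cyc_frob p ℚ_[p] hvp hγ
      refine ⟨δ j v / (Ideal.absNorm v.asIdeal : ℚ) ^ u, Or.inl hu, ?_⟩
      have h5 : χ (y⁻¹ * γ) ^ u * χ y ^ u = (Ideal.absNorm v.asIdeal : ℚ_[p]) ^ u := by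
        rw [← mul_pow, mul_comm, ← map_mul, mul_inv_cancel_left, h4]
      have h6 : (Ideal.absNorm v.asIdeal : ℚ_[p]) ^ u ≠ 0 := by
        rw [← h4]
        exact pow_ne_zero _ (hχne γ)
      have h7 : ((δ j v / (Ideal.absNorm v.asIdeal : ℚ) ^ u : ℚ) : ℚ_[p]) =
          ((δ j v : ℚ) : ℚ_[p]) / (Ideal.absNorm v.asIdeal : ℚ_[p]) ^ u := by
        push_cast
        rfl
      rw [h7, h3, div_mul_eq_mul_div, eq_div_iff h6, ← h5]
      ring
    · refine ⟨0, Or.inr rfl, ?_⟩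
      rw [Rat.cast_zero, zero_mul]
      apply h2
      rw [hu, Finset.mem_singleton] at hξ
      rw [hξ, Rat.cast_zero]
  choose J UU hUG hUn hUo hrel using key
  have hfinG : Finite (GK K ⧸ G₀) := Subgroup.quotient_finite_of_isOpen _ hG₀o
  set U : Subgroup (GK K) := ⨅ q : GK K ⧸ G₀, UU (q.out)⁻¹ with hU
  have hUq : ∀ z ∈ U, ∀ q : GK K ⧸ G₀, z ∈ UU (q.out)⁻¹ := fun z hz q =>
    (Subgroup.mem_iInf.1 hz) q
  have hmem : ∀ g : GK K, (((g : GK K ⧸ G₀).out)⁻¹)⁻¹ * g⁻¹ ∈ G₀ := by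
    intro g
    have h1 : ((g : GK K ⧸ G₀).out)⁻¹ * g ∈ G₀ := by
      rw [← QuotientGroup.eq]
      exact Quotient.out_eq _
    have h3 := G₀.inv_mem (hG₀n.conj_mem _ h1 ((g : GK K ⧸ G₀).out))
    have h4 : (((g : GK K ⧸ G₀).out) * (((g : GK K ⧸ G₀).out)⁻¹ * g) *
        ((g : GK K ⧸ G₀).out)⁻¹)⁻¹ = (((g : GK K ⧸ G₀).out)⁻¹)⁻¹ * g⁻¹ := by group
    rwa [h4] at h3
  have hrat : ∀ g : GK K, ∃ s : ℚ, (w = 2 * u ∨ s = 0) ∧
      Df V W c (J ((g : GK K ⧸ G₀).out)⁻¹) g⁻¹ = (s : ℚ_[p]) * χ g⁻¹ ^ u := fun g =>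
    (hrel ((g : GK K ⧸ G₀).out)⁻¹ g⁻¹ (hmem g)).2
  choose ξ hξ1 hξ2 using hrat
  refine ⟨u, U, fun g => J ((g : GK K ⧸ G₀).out)⁻¹, ξ, ?_, ?_, ?_, ?_, ?_⟩
  · by_cases hw : w = 2 * u
    · exact Or.inl hw
    · exact Or.inr fun g => (hξ1 g).resolve_left hw
  · exact Subgroup.normal_iInf_normal fun q => hUn _
  · rw [hU, Subgroup.coe_iInf]
    exact isOpen_iInter_of_finite fun q => hUo _
  · intro g z hz
    have hzG : z ∈ G₀ := hUG _ (hUq z hz (g : GK K ⧸ G₀))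
    have h1 : ((g * z : GK K) : GK K ⧸ G₀) = (g : GK K ⧸ G₀) := QuotientGroup.mk_mul_of_mem g hzG
    refine ⟨by simp only [h1], ?_⟩
    have h2 := hξ2 (g * z)
    rw [h1, _root_.mul_inv_rev, Df_comm] at h2
    have h3 := (hrel ((g : GK K ⧸ G₀).out)⁻¹ g⁻¹ (hmem g)).1 z⁻¹
      ((UU _).inv_mem (hUq z hz (g : GK K ⧸ G₀)))
    rw [h3, hξ2 g, map_mul, mul_pow] at h2
    have h4 : (ξ (g * z) : ℚ_[p]) = (ξ g : ℚ_[p]) := by
      have h5 : χ z⁻¹ ^ u ≠ 0 := pow_ne_zero _ (hχne _)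
      have h6 : χ g⁻¹ ^ u ≠ 0 := pow_ne_zero _ (hχne _)
      apply mul_right_cancel₀ (mul_ne_zero h5 h6)
      rw [← h2]
      ring
    exact_mod_cast h4
  · intro g
    have h1 := hξ2 g
    unfold Df at h1
    rw [inv_inv] at h1
    have h2 : χ g⁻¹ ^ u = ch p (u : ℤ) g := by
      rw [ch_apply, _root_.zpow_neg, zpow_natCast, c_inv, inv_pow]
    rw [← h2]
    linear_combination h1

end Pool.Agent.D0H78.QF
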