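import Pool.Agent.W715.VC.TrPow
import Pool.Agent.D0H32.EF.Lin

/-!
# Multisets of eigenvalues with almost periodic differences of power sums
-/

set_option autoImplicit false

namespace Pool.Agent.D0H78.QF

open Polynomial Pool.Agent.D0H32.EF

theorem sum_eq_count (S : Multiset ℂ) (F : ℂ → ℂ) (z : ℂ)
    (h : ∀ x ∈ S, x ≠ z → F x = 0) : (S.map F).sum = S.count z * F z := by
  classical
  rw [Finset.sum_multiset_map_count, Finset.sum_eq_single z]
  · rw [nsmul_eq_mul]
  · intro x hx hxz
    rw [h x (Multiset.mem_toFinset.1 hx) hxz, smul_zero]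
  · intro hz
    rw [Multiset.mem_toFinset] at hz
    rw [Multiset.count_eq_zero_of_notMem hz, zero_smul]

/-- the multiplicities of the numbers which are not `M`-th roots of `E` -/
theorem count_eq {S T : Multiset ℂ} {M : ℕ} {E : ℂ}
    (h : ∀ k : ℕ, 0 < k → (S.map fun z => z ^ (k + M)).sum - (T.map fun z => z ^ (k + M)).sum =
      E * ((S.map fun z => z ^ k).sum - (T.map fun z => z ^ k).sum))
    {z : ℂ} (hz : z ≠ 0) (hzM : z ^ M ≠ E) : S.count z = T.count z := by
  classical
  have h1 : ∀ g : ℂ[X], (S.map fun x => x * (x ^ M - E) * g.eval x).sum =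
      (T.map fun x => x * (x ^ M - E) * g.eval x).sum := by
    intro g
    induction g using Polynomial.induction_on' with
    | add p q hp hq =>
      simp only [eval_add, mul_add, Multiset.sum_map_add]
      rw [hp, hq]
    | monomial j c =>
      have h2 : ∀ X : Multiset ℂ, (X.map fun x => x * (x ^ M - E) * (monomial j c).eval x).sum =
          c * ((X.map fun x => x ^ ((j + 1) + M)).sum - E * (X.map fun x => x ^ (j + 1)).sum) := by
        intro X
        rw [← Multiset.sum_map_mul_left, ← Multiset.sum_map_sub, ← Multiset.sum_map_mul_left]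
        congr 1
        refine Multiset.map_congr rfl fun x _ => ?_
        rw [eval_monomial]
        ring
      rw [h2, h2]
      congr 1
      linear_combination h (j + 1) (Nat.succ_pos j)
  set g : ℂ[X] := ∏ y ∈ (S + T).toFinset.erase z, (X - C y) with hg
  have hgz : g.eval z ≠ 0 := by
    rw [hg, eval_prod, Finset.prod_ne_zero_iff]
    intro y hy
    rw [eval_sub, eval_X, eval_C, sub_ne_zero]
    exact (Finset.ne_of_mem_erase hy).symm
  have hg0 : ∀ x ∈ S + T, x ≠ z → x * (x ^ M - E) * g.eval x = 0 := by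
    intro x hx hxz
    rw [hg, eval_prod, Finset.prod_eq_zero (i := x), mul_zero]
    · exact Finset.mem_erase.2 ⟨hxz, Multiset.mem_toFinset.2 hx⟩
    · rw [eval_sub, eval_X, eval_C, sub_self]
  have h2 := h1 g
  rw [sum_eq_count S _ z fun x hx => hg0 x (Multiset.mem_add.2 (Or.inl hx)),
    sum_eq_count T _ z fun x hx => hg0 x (Multiset.mem_add.2 (Or.inr hx))] at h2
  have h3 : z * (z ^ M - E) * g.eval z ≠ 0 := mul_ne_zero (mul_ne_zero hz (sub_ne_zero.2 hzM)) hgz
  exact_mod_cast mul_right_cancel₀ h3 h2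

/-- the difference of the sums -/
theorem SS_diff {S T : Multiset ℂ} {Q : ℕ} (hQ : 2 ≤ Q) {R : ℝ} (hR : 0 < R)
    (h : ∀ z, ‖z‖ ^ 2 ≠ R → S.count z = T.count z) : SS Q R S - SS Q R T = S.sum - T.sum := by
  classical
  have hadd : ∀ A B : Multiset ℂ, SS Q R (A + B) = SS Q R A + SS Q R B := by
    intro A B
    unfold SS
    rw [Multiset.filter_add, Multiset.filter_add, Multiset.sum_add, Multiset.sum_add]
    ring
  have hpure : ∀ A : Multiset ℂ, (∀ z ∈ A, ‖z‖ ^ 2 = R) → SS Q R A = A.sum := by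
    intro A hA
    unfold SS
    rw [Multiset.filter_eq_self.2 fun z hz => (hA z hz).le, Multiset.filter_eq_nil.2 ?_,
      Multiset.sum_zero, mul_zero, sub_zero]
    intro z hz hcon
    rw [norm_mul, mul_pow, hA z hz, Complex.norm_natCast] at hcon
    have hQ' : (2 : ℝ) ≤ Q := by exact_mod_cast hQ
    have hQ2 : (4 : ℝ) ≤ (Q : ℝ) ^ 2 := by nlinarith
    have h1 : 4 * R ≤ (Q : ℝ) ^ 2 * R := mul_le_mul_of_nonneg_right hQ2 hR.le
    linarith
  have hfil : S.filter (fun z => ¬ ‖z‖ ^ 2 = R) = T.filter (fun z => ¬ ‖z‖ ^ 2 = R) := by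
    ext z
    rw [Multiset.count_filter, Multiset.count_filter]
    split_ifs with hz
    · rfl
    · exact h z hz
  have hS := Multiset.filter_add_not (fun z : ℂ => ‖z‖ ^ 2 = R) S
  have hT := Multiset.filter_add_not (fun z : ℂ => ‖z‖ ^ 2 = R) T
  rw [← hS, ← hT, hadd, hadd, Multiset.sum_add, Multiset.sum_add, hfil,
    hpure (S.filter fun z => ‖z‖ ^ 2 = R) (fun z hz => (Multiset.mem_filter.1 hz).2),
    hpure (T.filter fun z => ‖z‖ ^ 2 = R) (fun z hz => (Multiset.mem_filter.1 hz).2)]
  ring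

end Pool.Agent.D0H78.QF
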