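import Pool.Agent.D0H32.EF.Glob
import Pool.Agent.D0H78.QF.Root

/-!
# The difference of the traces on the invariants of small inertia groups
-/

set_option autoImplicit false
set_option linter.unusedSectionVars false
set_option maxHeartbeats 1000000

namespace Pool.Agent.D0H78.QF

open NumberField Filter Topology Pool.Agent.W569.FM Pool.Agent.W401.Cheb Matrix Module Polynomial
open Pool.Agent.R401.Tr5 Pool.Agent.R401.Tr9 Pool.Agent.R401.Tr4 Pool.Agent.R401.Tr10
open Pool.Agent.R401.Sup Pool.Agent.R401.Sup3 IsDedekindDomain Pool.Agent.R401.Img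
open Pool.Agent.D0H32.EF

variable {K : Type} [Field K] [NumberField K] {n m : ℕ}

section one

variable {ℓ : ℕ} [Fact ℓ.Prime] (V : GK K →* Matrix (Fin n) (Fin n) ℚ_[ℓ]) (hV : Continuous V)
  (W : GK K →* Matrix (Fin m) (Fin m) ℚ_[ℓ]) (hW : Continuous W) (u : ℤ)
  (φ : GK K → ℚ) (U : Subgroup (GK K)) (hUn : U.Normal) (hUo : IsOpen (U : Set (GK K)))
  (hU : ∀ x ∈ U, ∀ y, φ (x * y) = φ y)
  (hφ : ∀ y : GK K, cyc K ℓ ℚ_[ℓ] y ^ u * ((V y).trace - (W y).trace) = (φ y : ℚ_[ℓ]))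
  {P : Ideal (OO K)} (hP : P.IsMaximal) {q : ℕ} (hq : 2 ≤ q)
  (hℓP : (ℓ : OO K) ∉ P) {w : ℤ} (hw : w = 2 * u ∨ ∀ y, φ y = 0)

/-- the power sums of the eigenvalues -/
theorem sum_pow {r : ℕ} (X : GK K →* Matrix (Fin r) (Fin r) ℚ_[ℓ]) (e : ℚ_[ℓ] →+* ℂ) (h : GK K)
    {k : ℕ} (hk : k ≠ 0) : (((X h).charpoly.map e).roots.map fun z => z ^ k).sum =
      e (X (h ^ k)).trace := by
  rw [← Matrix.charpoly_map, ← Pool.Agent.W715.VC.trace_pow _ hk, map_pow]
  have h1 : e.mapMatrix ((X h) ^ k) = ((X h).map e) ^ k := map_pow e.mapMatrix _ _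
  rw [← h1, RingHom.mapMatrix_apply, Matrix.trace, Matrix.trace, map_sum]
  rfl

theorem count_zero {r : ℕ} (X : GK K →* Matrix (Fin r) (Fin r) ℚ_[ℓ]) (e : ℚ_[ℓ] →+* ℂ) (h : GK K) :
    ((X h).charpoly.map e).roots.count 0 = 0 := by
  classical
  apply Multiset.count_eq_zero_of_notMem
  intro h0
  rw [← Matrix.charpoly_map] at h0
  have h1 : ((X h).map e).det = 0 := by
    rw [Matrix.det_eq_prod_roots_charpoly]
    exact Multiset.prod_eq_zero h0
  have h2 : (X h).map e * (X h⁻¹).map e = 1 := by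
    rw [← Matrix.map_mul, ← map_mul, mul_inv_cancel, map_one]
    exact Matrix.map_one e (map_zero e) (map_one e)
  have h3 := congrArg Matrix.det h2
  rw [Matrix.det_mul, h1, zero_mul, Matrix.det_one] at h3
  exact zero_ne_one h3

include hV hW hUn hUo hU hφ hP hq hℓP hw in
/-- **The difference of the traces on the invariants of a small inertia group.** -/
theorem diff_H (hWBV : WB V P q w) (hWBW : WB W P q w) (H : Subgroup (GK K)) (hHn : H.Normal)
    (hHo : IsOpen (H : Set (GK K)))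
    (hsV : ∀ x ∈ H, Tendsto (fun k : ℕ => V x ^ (ℓ ^ k)) atTop (𝓝 1))
    (hsW : ∀ x ∈ H, Tendsto (fun k : ℕ => W x ^ (ℓ ^ k)) atTop (𝓝 1))
    (hnV : ∀ τ ∈ H, InInertia P τ → IsNilpotent (V τ - 1))
    (hnW : ∀ τ ∈ H, InInertia P τ → IsNilpotent (W τ - 1)) {a : ℕ} (ha : 0 < a) {h : GK K}
    (hh : FrobAt (q ^ a) P h⁻¹) (pV : Matrix (Fin n) (Fin n) ℚ_[ℓ])
    (hpV : ∀ x, pV *ᵥ x ∈ invH V P H) (hpV' : ∀ x ∈ invH V P H, pV *ᵥ x = x)
    (pW : Matrix (Fin m) (Fin m) ℚ_[ℓ])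
    (hpW : ∀ x, pW *ᵥ x ∈ invH W P H) (hpW' : ∀ x ∈ invH W P H, pW *ᵥ x = x) :
    (V h * pV).trace - (W h * pW).trace = ((q : ℚ_[ℓ]) ^ a) ^ u * (φ h : ℚ_[ℓ]) := by
  classical
  obtain ⟨i⟩ := Pool.Agent.R401.Iso.exists_iso ℓ
  let e : ℚ_[ℓ] →+* ℂ := (i : PadicAlgCl ℓ →+* ℂ).comp (algebraMap ℚ_[ℓ] (PadicAlgCl ℓ))
  have hqpos : (0 : ℝ) < q := by
    have : 0 < q := by omega
    exact_mod_cast this
  have hQ : 2 ≤ q ^ a := hq.trans (Nat.le_self_pow ha.ne' _)
  have hR : (0 : ℝ) < ((q : ℝ) ^ a) ^ w := by positivity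
  -- the traces of the powers
  have htr : ∀ k : ℕ, e (V (h ^ k)).trace - e (W (h ^ k)).trace =
      (e (ch ℓ u h)) ^ k * (φ (h ^ k) : ℂ) := by
    intro k
    rw [tr_eq V W u φ hφ (h ^ k), map_add, map_mul, map_pow (ch ℓ u), map_pow e, map_ratCast]
    ring
  have hfin : Finite (GK K ⧸ U) := Subgroup.quotient_finite_of_isOpen _ hUo
  have hfi : U.FiniteIndex := Subgroup.finiteIndex_of_finite_quotient
  have hM : 0 < U.index := Nat.pos_of_ne_zero hfi.index_ne_zero
  set M := U.index with hMdef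
  have hhM : h ^ M ∈ U := Subgroup.pow_index_mem U h
  -- the multiplicities
  have hcount : ∀ z : ℂ, ‖z‖ ^ 2 ≠ ((q : ℝ) ^ a) ^ w →
      ((V h).charpoly.map e).roots.count z = ((W h).charpoly.map e).roots.count z := by
    intro z hz
    by_cases hz0 : z = 0
    · rw [hz0, count_zero, count_zero]
    rcases hw with hw | hw
    · refine count_eq (M := M) (E := (e (ch ℓ u h)) ^ M) (fun k hk => ?_) hz0 ?_
      · rw [sum_pow V e h (by omega), sum_pow W e h (by omega), sum_pow V e h hk.ne',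
          sum_pow W e h hk.ne', htr, htr, add_comm k M, pow_add h, hU _ hhM]
        ring
      · intro hzM
        apply hz
        have h1 : ‖z‖ ^ M = ‖e (ch ℓ u h)‖ ^ M := by rw [← norm_pow, ← norm_pow, hzM]
        have h2 : ‖z‖ = ‖e (ch ℓ u h)‖ :=
          (pow_left_inj₀ (norm_nonneg _) (norm_nonneg _) hM.ne').1 h1
        rw [h2, ch_frob u hP hℓP hh, map_zpow₀, map_pow, map_natCast, norm_zpow, norm_pow,
          Complex.norm_natCast, hw, ← zpow_natCast, ← _root_.zpow_mul]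
        congr 1
        push_cast
        ring
    · refine count_eq (M := 1) (E := z + 1) (fun k hk => ?_) hz0 ?_
      · rw [sum_pow V e h (by omega), sum_pow W e h (by omega), sum_pow V e h hk.ne',
          sum_pow W e h hk.ne', htr, htr, hw, hw]
        simp
      · rw [pow_one]
        intro h1
        have h2 : (1 : ℂ) = 0 := by linear_combination -h1
        exact one_ne_zero h2
  have hd := SS_diff hQ hR hcount
  apply e.injective
  rw [map_sub, trace_invH V hV hP hℓP hq hWBV H hHo hsV hnV ha hh e pV hpV hpV',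
    trace_invH W hW hP hℓP hq hWBW H hHo hsW hnW ha hh e pW hpW hpW', hd]
  have hs : ∀ {r : ℕ} (X : GK K →* Matrix (Fin r) (Fin r) ℚ_[ℓ]),
      ((X h).charpoly.map e).roots.sum = e (X h).trace := by
    intro r X
    have h1 := sum_pow X e h one_ne_zero
    simp only [pow_one, Multiset.map_id'] at h1
    exact h1
  rw [hs, hs]
  have h1 := htr 1
  rw [pow_one, pow_one] at h1
  rw [h1, ch_frob u hP hℓP hh, map_mul, map_ratCast]

end one

end Pool.Agent.D0H78.QF
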