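import Pool.Agent.D0H78.QF.Dif

/-!
# The quotient of the local factors
-/

set_option autoImplicit false
set_option linter.unusedSectionVars false
set_option maxHeartbeats 1000000

namespace Pool.Agent.D0H78.QF

open NumberField Filter Topology Pool.Agent.W569.FM Pool.Agent.W401.Cheb Matrix Module Polynomial
open Pool.Agent.R401.Tr5 Pool.Agent.R401.Tr9 Pool.Agent.R401.Tr4 Pool.Agent.R401.Tr10
open Pool.Agent.R401.Sup Pool.Agent.R401.Sup3 IsDedekindDomain Pool.Agent.R401.Img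
open Pool.Agent.D0H32.EF

variable {K : Type} [Field K] [NumberField K] {n m : ℕ}

/-- `A` is the matrix of `M` on `I` -/
def MatOn {F : Type} [Field F] {n r : ℕ} (M : Matrix (Fin n) (Fin n) F)
    (I : Submodule F (Fin n → F)) (A : Matrix (Fin r) (Fin r) F) : Prop :=
  ∃ b : Basis (Fin r) F I, ∀ j, M *ᵥ (b j : Fin n → F) = ∑ i, A i j • (b i : Fin n → F)

section one

variable {ℓ : ℕ} [Fact ℓ.Prime] (ρ : GK K →* Matrix (Fin n) (Fin n) ℚ_[ℓ]) {P : Ideal (OO K)}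
  {H : Subgroup (GK K)} (hHn : H.Normal) (hH : IsOpen (H : Set (GK K)))
  {p : Matrix (Fin n) (Fin n) ℚ_[ℓ]}
  (hp : ∀ x, p *ᵥ x ∈ invH ρ P H) (hp' : ∀ x ∈ invH ρ P H, p *ᵥ x = x)

include hH in
theorem trace_pr' (g : GK K) (k : ℕ) :
    (ρ g ^ k * Pool.Agent.D0H32.EF.pr ρ P H p).trace = ((Nat.card (IG P ⧸ H.subgroupOf (IG P)) : ℚ_[ℓ])⁻¹ *
      ∑ᶠ c : IG P ⧸ H.subgroupOf (IG P), (ρ (g ^ k * ((c.out : IG P) : GK K)) * p).trace) := by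
  classical
  have := Pool.Agent.R401.Tr6.finQ H hH (P := P)
  have hft : Fintype (IG P ⧸ H.subgroupOf (IG P)) := Fintype.ofFinite _
  unfold Pool.Agent.D0H32.EF.pr
  rw [finsum_eq_sum_of_fintype, finsum_eq_sum_of_fintype, mul_smul_comm, Matrix.trace_smul,
    Finset.mul_sum, Matrix.trace_sum, smul_eq_mul]
  congr 1
  refine Finset.sum_congr rfl fun c _ => ?_
  rw [← mul_assoc, ← map_pow, ← map_mul]

include hH hp hp' in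
theorem trace_mat {I : Submodule ℚ_[ℓ] (Fin n → ℚ_[ℓ])}
    (hI : ∀ x, x ∈ I ↔ ∀ τ, InInertia P τ → ρ τ *ᵥ x = x) {g : GK K} {r : ℕ}
    {A : Matrix (Fin r) (Fin r) ℚ_[ℓ]} (hA : MatOn (ρ g) I A) (k : ℕ) :
    (A ^ k).trace = ((Nat.card (IG P ⧸ H.subgroupOf (IG P)) : ℚ_[ℓ])⁻¹ *
      ∑ᶠ c : IG P ⧸ H.subgroupOf (IG P), (ρ (g ^ k * ((c.out : IG P) : GK K)) * p).trace) := by
  obtain ⟨b, hA⟩ := hA
  rw [trace_pow (e := Pool.Agent.D0H32.EF.pr ρ P H p) (I := I) (fun x => by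
        rw [hI]
        intro τ hτ
        rw [Matrix.mulVec_mulVec, mul_pr ρ hH hp hτ]) (fun x hx => by
        rw [hI] at hx
        exact pr_fix ρ hH hp' x hx) b hA]
  exact trace_pr' ρ hH g k

end one

section fam

variable (V : ∀ (ℓ : ℕ) [Fact ℓ.Prime], GK K →* Matrix (Fin n) (Fin n) ℚ_[ℓ])
  (hV : ∀ (ℓ : ℕ) [Fact ℓ.Prime], Continuous (V ℓ))
  (W : ∀ (ℓ : ℕ) [Fact ℓ.Prime], GK K →* Matrix (Fin m) (Fin m) ℚ_[ℓ])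
  (hW : ∀ (ℓ : ℕ) [Fact ℓ.Prime], Continuous (W ℓ)) (u : ℤ)
  (φ : GK K → ℚ) (U : Subgroup (GK K)) (hUn : U.Normal) (hUo : IsOpen (U : Set (GK K)))
  (hU : ∀ x ∈ U, ∀ y, φ (x * y) = φ y)
  (hφ : ∀ (ℓ : ℕ) [Fact ℓ.Prime] (y : GK K),
    cyc K ℓ ℚ_[ℓ] y ^ u * ((V ℓ y).trace - (W ℓ y).trace) = (φ y : ℚ_[ℓ]))
  {P : Ideal (OO K)} (hP : P.IsMaximal) {q : ℕ} (hq : 2 ≤ q) {σ : GK K} (hσ : FrobAt q P σ)
  {w : ℤ} (hw : w = 2 * u ∨ ∀ y, φ y = 0)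
  (hWBV : ∀ (ℓ : ℕ) [Fact ℓ.Prime], (ℓ : OO K) ∉ P → WB (V ℓ) P q w)
  (hWBW : ∀ (ℓ : ℕ) [Fact ℓ.Prime], (ℓ : OO K) ∉ P → WB (W ℓ) P q w)
  (I : ∀ (ℓ : ℕ) [Fact ℓ.Prime], Submodule ℚ_[ℓ] (Fin n → ℚ_[ℓ]))
  (hI : ∀ (ℓ : ℕ) [Fact ℓ.Prime] (x : Fin n → ℚ_[ℓ]),
    x ∈ I ℓ ↔ ∀ τ, InInertia P τ → V ℓ τ *ᵥ x = x)
  (J : ∀ (ℓ : ℕ) [Fact ℓ.Prime], Submodule ℚ_[ℓ] (Fin m → ℚ_[ℓ]))
  (hJ : ∀ (ℓ : ℕ) [Fact ℓ.Prime] (x : Fin m → ℚ_[ℓ]),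
    x ∈ J ℓ ↔ ∀ τ, InInertia P τ → W ℓ τ *ᵥ x = x)
  (hexV : ∀ (ℓ : ℕ) [Fact ℓ.Prime], (ℓ : OO K) ∉ P → ∃ (r : ℕ) (A : Matrix (Fin r) (Fin r) ℚ_[ℓ]),
    MatOn (V ℓ σ⁻¹) (I ℓ) A)
  (hexW : ∀ (ℓ : ℕ) [Fact ℓ.Prime], (ℓ : OO K) ∉ P → ∃ (r : ℕ) (A : Matrix (Fin r) (Fin r) ℚ_[ℓ]),
    MatOn (W ℓ σ⁻¹) (J ℓ) A)

/-- the average of the class function over the inertia group -/
noncomputable def av (q : ℕ) (u : ℤ) (P : Ideal (OO K)) (σ : GK K) (φ : GK K → ℚ)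
    (H : Subgroup (GK K)) (k : ℕ) : ℚ :=
  ((q : ℚ) ^ k) ^ u * ((Nat.card (IG P ⧸ H.subgroupOf (IG P)) : ℚ)⁻¹ *
    ∑ᶠ c : IG P ⧸ H.subgroupOf (IG P), φ (σ⁻¹ ^ k * ((c.out : IG P) : GK K)))

include hU hw hq hUo hUn in
theorem av_period {H : Subgroup (GK K)} (k : ℕ) : av q u P σ φ H (k + 2 * U.index) =
    (q : ℚ) ^ (w * U.index) * av q u P σ φ H k := by
  have hq0 : (q : ℚ) ≠ 0 := by
    have : q ≠ 0 := by omega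
    exact_mod_cast this
  have hmem : σ⁻¹ ^ (2 * U.index) ∈ U := by
    rw [mul_comm, pow_mul]
    exact U.pow_mem (Subgroup.pow_index_mem U σ⁻¹) 2
  have h1 : ∀ c : GK K, φ (σ⁻¹ ^ (k + 2 * U.index) * c) = φ (σ⁻¹ ^ k * c) := by
    intro c
    rw [add_comm, pow_add, mul_assoc, hU _ hmem]
  unfold av
  simp only [h1]
  rcases hw with hw | hw
  · have h2 : ((q : ℚ) ^ (k + 2 * U.index)) ^ u =
        (q : ℚ) ^ (2 * u * U.index) * ((q : ℚ) ^ k) ^ u := by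
      rw [← zpow_natCast, ← _root_.zpow_mul, ← zpow_natCast (q : ℚ) k, ← _root_.zpow_mul,
        ← zpow_add₀ hq0]
      congr 1
      push_cast
      ring
    rw [hw, h2, mul_assoc]
  · simp [hw]

include hV hW hUn hUo hU hφ hP hq hσ hw hWBV hWBW hI hJ in
theorem tr_av (ℓ : ℕ) [Fact ℓ.Prime] (hℓP : (ℓ : OO K) ∉ P) : ∃ H₀ : Subgroup (GK K), H₀.Normal ∧
    IsOpen (H₀ : Set (GK K)) ∧ ∀ H ≤ H₀, H.Normal → IsOpen (H : Set (GK K)) →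
    ∀ (r s : ℕ) (A : Matrix (Fin r) (Fin r) ℚ_[ℓ]) (B : Matrix (Fin s) (Fin s) ℚ_[ℓ]),
      MatOn (V ℓ σ⁻¹) (I ℓ) A → MatOn (W ℓ σ⁻¹) (J ℓ) B →
      ∀ k, 0 < k → (A ^ k).trace - (B ^ k).trace = (av q u P σ φ H k : ℚ_[ℓ]) := by
  classical
  obtain ⟨HV, hVn, hVo, hsV, hnV⟩ := exists_unip (V ℓ) (hV ℓ) hP hℓP hq hσ
  obtain ⟨HW, hWn, hWo, hsW, hnW⟩ := exists_unip (W ℓ) (hW ℓ) hP hℓP hq hσ
  refine ⟨HV ⊓ HW, inferInstance, by rw [Subgroup.coe_inf]; exact hVo.inter hWo, ?_⟩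
  intro H hle hHn hHo r s A B hA hB k hk
  obtain ⟨pV, hpV, hpV'⟩ := exists_proj (invH (V ℓ) P H)
  obtain ⟨pW, hpW, hpW'⟩ := exists_proj (invH (W ℓ) P H)
  rw [trace_mat (V ℓ) hHo hpV hpV' (hI ℓ) hA k, trace_mat (W ℓ) hHo hpW hpW' (hJ ℓ) hB k]
  have := Pool.Agent.R401.Tr6.finQ H hHo (P := P)
  have hft : Fintype (IG P ⧸ H.subgroupOf (IG P)) := Fintype.ofFinite _
  rw [finsum_eq_sum_of_fintype, finsum_eq_sum_of_fintype, ← mul_sub, ← Finset.sum_sub_distrib]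
  have h1 : ∀ c : IG P ⧸ H.subgroupOf (IG P),
      (V ℓ (σ⁻¹ ^ k * ((c.out : IG P) : GK K)) * pV).trace -
        (W ℓ (σ⁻¹ ^ k * ((c.out : IG P) : GK K)) * pW).trace =
      ((q : ℚ_[ℓ]) ^ k) ^ u * (φ (σ⁻¹ ^ k * ((c.out : IG P) : GK K)) : ℚ_[ℓ]) := by
    intro c
    refine diff_H (V ℓ) (hV ℓ) (W ℓ) (hW ℓ) u φ U hUn hUo hU (hφ ℓ) hP hq hℓP hw (hWBV ℓ hℓP)
      (hWBW ℓ hℓP) H hHn hHo (fun x hx => hsV x (hle hx).1) (fun x hx => hsW x (hle hx).2)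
      (fun τ hτ => hnV τ (hle hτ).1) (fun τ hτ => hnW τ (hle hτ).2) hk ?_ pV hpV hpV' pW hpW hpW'
    have h1 : (σ⁻¹ ^ k * ((c.out : IG P) : GK K))⁻¹ = (((c.out)⁻¹ : IG P) : GK K) * σ ^ k := by
      rw [_root_.mul_inv_rev, inv_pow, inv_inv]
      rfl
    rw [h1, ← one_mul (q ^ k)]
    exact frobAt_mul (frobAt_one.2 ((c.out)⁻¹).2) (frobAt_pow hσ k)
  rw [Finset.sum_congr rfl fun c _ => h1 c, ← Finset.mul_sum]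
  unfold av
  rw [finsum_eq_sum_of_fintype]
  push_cast
  ring

include hV hW hUn hUo hU hφ hP hq hσ hw hWBV hWBW hI hJ hexV hexW in
/-- **The quotient of the local factors does not depend on `ℓ`.** -/
theorem quot : ∃ (M : ℕ) (c : ℕ → ℚ), 0 < M ∧
    (∀ k, c (k + 2 * M) = (q : ℚ) ^ (w * M) * c k) ∧
    ∀ (ℓ : ℕ) [Fact ℓ.Prime], (ℓ : OO K) ∉ P →
    ∀ (r s : ℕ) (A : Matrix (Fin r) (Fin r) ℚ_[ℓ]) (B : Matrix (Fin s) (Fin s) ℚ_[ℓ]),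
      MatOn (V ℓ σ⁻¹) (I ℓ) A → MatOn (W ℓ σ⁻¹) (J ℓ) B →
      ∀ k, 0 < k → (A ^ k).trace - (B ^ k).trace = (c k : ℚ_[ℓ]) := by
  have hfin : Finite (GK K ⧸ U) := Subgroup.quotient_finite_of_isOpen _ hUo
  have hfi : U.FiniteIndex := Subgroup.finiteIndex_of_finite_quotient
  have hM : 0 < U.index := Nat.pos_of_ne_zero hfi.index_ne_zero
  have htr := fun (ℓ : ℕ) [Fact ℓ.Prime] => tr_av V hV W hW u φ U hUn hUo hU hφ hP hq hσ hw hWBV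
    hWBW I hI J hJ ℓ
  obtain ⟨ℓ₀, hℓ₀, hℓ₀P⟩ := Pool.Agent.R401.Tr6.exists_prime_not_mem hP
  have : Fact ℓ₀.Prime := ⟨hℓ₀⟩
  obtain ⟨r₀, A₀, hA₀⟩ := hexV ℓ₀ hℓ₀P
  obtain ⟨s₀, B₀, hB₀⟩ := hexW ℓ₀ hℓ₀P
  obtain ⟨H₀, hH₀n, hH₀o, htr₀⟩ := htr ℓ₀ hℓ₀P
  refine ⟨U.index, av q u P σ φ H₀, hM, fun k => av_period u φ U hUn hUo hU hq hw k, ?_⟩
  intro ℓ _ hℓP r s A B hA hB k hk
  obtain ⟨H₁, hH₁n, hH₁o, htr₁⟩ := htr ℓ hℓP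
  have hn : (H₀ ⊓ H₁).Normal := inferInstance
  have ho : IsOpen ((H₀ ⊓ H₁ : Subgroup (GK K)) : Set (GK K)) := by
    rw [Subgroup.coe_inf]
    exact hH₀o.inter hH₁o
  rw [htr₁ _ inf_le_right hn ho r s A B hA hB k hk]
  have h1 := htr₀ _ inf_le_left hn ho r₀ s₀ A₀ B₀ hA₀ hB₀ k hk
  have h2 := htr₀ _ le_rfl hH₀n hH₀o r₀ s₀ A₀ B₀ hA₀ hB₀ k hk
  rw [h1] at h2
  have h3 := Rat.cast_injective h2
  rw [h3]

end fam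

end Pool.Agent.D0H78.QF
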