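import Pool.Agent.D0H78.QF.Conn
import Pool.Agent.D0H78.FM.Many

/-!
# The structure of the difference of the traces, positive density
-/

set_option autoImplicit false
set_option linter.unusedSectionVars false
set_option maxHeartbeats 1000000

namespace Pool.Agent.D0H78.QF

open NumberField Filter Topology IsDedekindDomain Pool.Agent.W401.Cheb Pool.Agent.R401.Eng
open Pool.Agent.R401.Sup Pool.Agent.R401.Sup2 Pool.Agent.R401.Sup3 Module Matrix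
open Pool.Agent.R401.Tr4 Pool.Agent.R401.Tr5 Pool.Agent.R401.Tr9 Pool.Agent.R401.Tr10
open Pool.Agent.D0H32.EF Pool.Agent.D0H78.FM

variable {K : Type} [Field K] [NumberField K] {n m : ℕ}

/-- **Positive density, connected image**: the same conclusion as `R401.Tr7.family`. -/
theorem family_conn (V : ∀ (ℓ : ℕ) [Fact ℓ.Prime], GK K →* Matrix (Fin n) (Fin n) ℚ_[ℓ])
    (hV : ∀ (ℓ : ℕ) [Fact ℓ.Prime], Continuous (V ℓ))
    (W : ∀ (ℓ : ℕ) [Fact ℓ.Prime], GK K →* Matrix (Fin m) (Fin m) ℚ_[ℓ])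
    (hW : ∀ (ℓ : ℕ) [Fact ℓ.Prime], Continuous (W ℓ))
    (B : Set (HeightOneSpectrum (𝓞 K))) (hB : B.Finite) (a : HeightOneSpectrum (𝓞 K) → ℚ) (w : ℕ)
    (htr : ∀ (ℓ : ℕ) [Fact ℓ.Prime], ∀ v, v ∉ B → (ℓ : 𝓞 K) ∉ v.asIdeal → ∀ g, IsFrob v g →
      (V ℓ g⁻¹).trace - (W ℓ g⁻¹).trace = (a v : ℚ_[ℓ]))
    (C : ℝ) (hC : ∀ v, v ∉ B → (a v : ℝ) ^ 2 ≤ C * (Ideal.absNorm v.asIdeal : ℝ) ^ w)
    {d : ℕ} (hd : 0 < d) {θ : ℝ}
    (hP : ∃ᶠ N : ℕ in atTop, dens (fun v : HeightOneSpectrum (𝓞 K) =>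
      ¬ ∃ c : ℤ, (d : ℚ) * a v ^ 2 = (Ideal.absNorm v.asIdeal : ℚ) ^ w * c) N ≤ θ)
    (p : ℕ) [Fact p.Prime] (G₀ : Subgroup (GK K)) (hG₀n : G₀.Normal)
    (hG₀o : IsOpen (G₀ : Set (GK K))) (hθ : θ * G₀.index < 1)
    (hconn : ∀ U : Subgroup (GK K), U ≤ G₀ → U.Normal → IsOpen (U : Set (GK K)) → ∀ g ∈ G₀,
      ((V p g, W p g) : Matrix (Fin n) (Fin n) ℚ_[p] × Matrix (Fin m) (Fin m) ℚ_[p]) ∈
        Submodule.span ℚ_[p] ((fun u => (V p u, W p u)) '' (U : Set (GK K)))) :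
    ∃ (u : ℤ) (φ : GK K → ℚ) (U : Subgroup (GK K)), ((w : ℤ) = 2 * u ∨ ∀ y, φ y = 0) ∧ U.Normal ∧
      IsOpen (U : Set (GK K)) ∧ (∀ x ∈ U, ∀ y, φ (x * y) = φ y) ∧
      ∀ (ℓ : ℕ) [Fact ℓ.Prime] (y : GK K),
        cyc K ℓ ℚ_[ℓ] y ^ u * ((V ℓ y).trace - (W ℓ y).trace) = (φ y : ℚ_[ℓ]) := by
  classical
  have hsum : ∀ (x : ℚ_[p]), ∑ _i : Unit, (((1 : ℚ) : ℚ_[p])) * x = x := by
    intro x
    rw [Fintype.sum_unique, Rat.cast_one, one_mul]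
  obtain ⟨u, U, j, ξ, hw, hUn, hUo, hjξ, hT⟩ := conn_primeD (κ := Unit) (ι := Unit)
    (m := fun _ => m) (V p) (hV p) (fun _ => W p) (fun _ => hW p) B hB (fun _ _ => (1 : ℚ))
    (fun _ v => a v) (by
      intro v hv hpv g hg j
      unfold Df
      rw [hsum]
      exact htr p v hv hpv g hg) G₀ hG₀n hG₀o hθ (by
      intro U hU hUn hUo g hg
      let Φ : Matrix (Fin n) (Fin n) ℚ_[p] × Matrix (Fin m) (Fin m) ℚ_[p] →ₗ[ℚ_[p]]
          Matrix (Fin n) (Fin n) ℚ_[p] × (Unit → Matrix (Fin m) (Fin m) ℚ_[p]) :=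
        LinearMap.prodMap LinearMap.id (LinearMap.pi fun _ => LinearMap.id)
      have h1 := Submodule.mem_map_of_mem (f := Φ) (hconn U hU hUn hUo g hg)
      rw [Submodule.map_span, ← Set.image_comp] at h1
      exact h1) w C (fun v hv _ => hC v hv) hd
      (hP.mono fun N hN => (dens_le (fun v hv => hv ()) N).trans hN)
  refine ⟨u, ξ, U, ?_, hUn, hUo, ?_, ?_⟩
  · rcases hw with hw | hw
    · left
      rw [hw]
      push_cast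
      ring
    · exact Or.inr hw
  · intro x hx y
    have h1 : x * y = y * (y⁻¹ * x * y⁻¹⁻¹) := by group
    rw [h1]
    exact (hjξ y _ (hUn.conj_mem x hx y⁻¹)).2
  intro ℓ _ y
  have hc : ∀ {k : ℕ} (ρ : GK K →* Matrix (Fin k) (Fin k) ℚ_[ℓ]),
      Continuous ρ → Continuous fun g : GK K => (ρ g).trace := by
    intro k ρ hρ
    exact (Continuous.matrix_trace continuous_id).comp hρ
  have hloc : IsLocallyConstant fun g => ((ξ g : ℚ) : ℚ_[ℓ]) := by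
    rw [IsLocallyConstant.iff_exists_open]
    intro x
    refine ⟨(fun y => x⁻¹ * y) ⁻¹' (U : Set (GK K)),
      hUo.preimage (continuous_const.mul continuous_id), ?_, ?_⟩
    · rw [Set.mem_preimage, inv_mul_cancel]
      exact U.one_mem
    · intro y hy
      have h1 := (hjξ x _ hy).2
      rw [mul_inv_cancel_left] at h1
      rw [h1]
  set Cl : Set (GK K) := {y | cyc K ℓ ℚ_[ℓ] y ^ (u : ℤ) * ((V ℓ y).trace - (W ℓ y).trace) =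
    (ξ y : ℚ_[ℓ])} with hCl
  have hCc : IsClosed Cl := by
    refine isClosed_eq (Continuous.mul ?_ ((hc _ (hV ℓ)).sub (hc _ (hW ℓ)))) hloc.continuous
    simp only [zpow_natCast]
    exact (continuous_cyc K ℓ ℚ_[ℓ]).pow u
  have hSfin : {v : HeightOneSpectrum (𝓞 K) | v ∈ B ∨ (p : 𝓞 K) ∈ v.asIdeal ∨
      (ℓ : 𝓞 K) ∈ v.asIdeal}.Finite :=
    hB.union ((Pool.Agent.W352.ChAbs.over_le p (Fact.out : p.Prime)).1.union
      (Pool.Agent.W352.ChAbs.over_le ℓ (Fact.out : ℓ.Prime)).1)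
  refine dense_frob Cl hCc hSfin (fun v hv γ hγ => ?_) y
  obtain ⟨hvB, hv'⟩ := not_or.1 hv
  obtain ⟨hvp, hvℓ⟩ := not_or.1 hv'
  have hN : (Ideal.absNorm v.asIdeal : ℚ) ≠ 0 :=
    Nat.cast_ne_zero.2 (fun h0 => v.ne_bot (Ideal.absNorm_eq_zero_iff.1 h0))
  have h1 := hT γ⁻¹
  rw [hsum, ch_isFrob p u v γ hvp hγ, ← sub_eq_iff_eq_add', htr p v hvB hvp γ hγ] at h1
  have h2 : a v = ξ γ⁻¹ * (Ideal.absNorm v.asIdeal : ℚ) ^ u := by exact_mod_cast h1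
  change cyc K ℓ ℚ_[ℓ] γ⁻¹ ^ (u : ℤ) * ((V ℓ γ⁻¹).trace - (W ℓ γ⁻¹).trace) = (ξ γ⁻¹ : ℚ_[ℓ])
  rw [htr ℓ v hvB hvℓ γ hγ, zpow_natCast, c_inv, cyc_frob ℓ ℚ_[ℓ] hvℓ hγ, h2]
  have hN' : (Ideal.absNorm v.asIdeal : ℚ_[ℓ]) ≠ 0 := by exact_mod_cast hN
  push_cast
  rw [inv_pow]
  field_simp

end Pool.Agent.D0H78.QF
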