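import Pool.Agent.D0H78.WM.Md
import Pool.Agent.D0H32.EF.Lin

/-!
# Differences of characters which are constant on the cosets of a normal subgroup
-/

set_option autoImplicit false

namespace Pool.Agent.D0H78.QF

open Module Pool.Agent.D0H78.WM

variable {G : Type} [Group G] (U : Subgroup G)

section inv

variable (M : Type) [AddCommGroup M] [Module (MonoidAlgebra ℂ G) M] [Module ℂ M]
  [IsScalarTower ℂ (MonoidAlgebra ℂ G) M]

/-- the vectors which are fixed by `U` -/
noncomputable def fixed [hU : U.Normal] : Submodule (MonoidAlgebra ℂ G) M where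
  carrier := {x | ∀ g ∈ U, MonoidAlgebra.of ℂ G g • x = x}
  add_mem' := by
    intro x y hx hy g hg
    rw [smul_add, hx g hg, hy g hg]
  zero_mem' := by
    intro g _
    rw [smul_zero]
  smul_mem' := by
    intro a x hx g hg
    induction a using MonoidAlgebra.induction_on with
    | of k =>
      have h1 : MonoidAlgebra.of ℂ G g * MonoidAlgebra.of ℂ G k =
          MonoidAlgebra.of ℂ G k * MonoidAlgebra.of ℂ G (k⁻¹ * g * k) := by
        rw [← map_mul, ← map_mul]
        congr 1
        group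
      have h2 := hx (k⁻¹ * g * k) (by
        have := hU.conj_mem g hg k⁻¹
        rwa [inv_inv] at this)
      rw [← mul_smul, h1, mul_smul, h2]
    | add r s hr hs => rw [add_smul, smul_add, hr, hs]
    | smul c r hr =>
      rw [smul_assoc, smul_algebra_smul_comm, hr]

theorem mem_fixed [hU : U.Normal] (x : M) : x ∈ fixed U M ↔
    ∀ g ∈ U, MonoidAlgebra.of ℂ G g • x = x := Iff.rfl

end inv

/-- a function which is the trace of a module on which `U` acts trivially -/
def Art (h : G → ℂ) : Prop :=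
  ∃ (N : Type) (_ : AddCommGroup N) (_ : Module ℂ N) (_ : Module (MonoidAlgebra ℂ G) N)
    (_ : IsScalarTower ℂ (MonoidAlgebra ℂ G) N) (_ : FiniteDimensional ℂ N),
    (∀ g ∈ U, ∀ x : N, MonoidAlgebra.of ℂ G g • x = x) ∧
    ∀ g, LinearMap.trace ℂ N (act N (MonoidAlgebra.of ℂ G g)) = h g

/-- a function which is the trace of a semisimple module in which `U` fixes no vector -/
def Free (h : G → ℂ) : Prop :=
  ∃ (N : Type) (_ : AddCommGroup N) (_ : Module ℂ N) (_ : Module (MonoidAlgebra ℂ G) N)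
    (_ : IsScalarTower ℂ (MonoidAlgebra ℂ G) N) (_ : FiniteDimensional ℂ N),
    IsSemisimpleModule (MonoidAlgebra ℂ G) N ∧
    (∀ x : N, (∀ g ∈ U, MonoidAlgebra.of ℂ G g • x = x) → x = 0) ∧
    ∀ g, LinearMap.trace ℂ N (act N (MonoidAlgebra.of ℂ G g)) = h g

variable {U}

theorem act_prod (N N' : Type) [AddCommGroup N] [Module ℂ N] [Module (MonoidAlgebra ℂ G) N]
    [IsScalarTower ℂ (MonoidAlgebra ℂ G) N] [AddCommGroup N'] [Module ℂ N']
    [Module (MonoidAlgebra ℂ G) N'] [IsScalarTower ℂ (MonoidAlgebra ℂ G) N']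
    (a : MonoidAlgebra ℂ G) : act (N × N') a = (act N a).prodMap (act N' a) := rfl

theorem semisimple_prod {R N N' : Type} [Ring R] [AddCommGroup N] [Module R N] [AddCommGroup N']
    [Module R N'] [IsSemisimpleModule R N] [IsSemisimpleModule R N'] :
    IsSemisimpleModule R (N × N') := by
  let f : Bool → Submodule R (N × N') :=
    Bool.rec (LinearMap.range (LinearMap.inl R N N')) (LinearMap.range (LinearMap.inr R N N'))
  refine isSemisimpleModule_of_isSemisimpleModule_submodule' (p := f) ?_ ?_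
  · rintro (_ | _)
    · exact IsSemisimpleModule.range _
    · exact IsSemisimpleModule.range _
  · rw [iSup_bool_eq, sup_comm]
    exact LinearMap.sup_range_inl_inr

theorem semisimple_punit {R : Type} [Ring R] : IsSemisimpleModule R PUnit.{1} := by
  refine { exists_isCompl := fun a => ⟨⊤, ?_⟩ }
  have h1 : a = ⊥ := Subsingleton.elim _ _
  rw [h1]
  exact isCompl_bot_top

theorem Art.add {h h' : G → ℂ} (H : Art U h) (H' : Art U h') : Art U fun g => h g + h' g := by
  obtain ⟨N, _, _, _, _, _, h1, h2⟩ := H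
  obtain ⟨N', _, _, _, _, _, h1', h2'⟩ := H'
  refine ⟨N × N', inferInstance, inferInstance, inferInstance, inferInstance, inferInstance,
    ?_, ?_⟩
  · intro g hg x
    exact Prod.ext (h1 g hg x.1) (h1' g hg x.2)
  · intro g
    rw [act_prod, LinearMap.trace_prodMap', h2, h2']

theorem Free.add {h h' : G → ℂ} (H : Free U h) (H' : Free U h') : Free U fun g => h g + h' g := by
  obtain ⟨N, _, _, _, _, _, h0, h1, h2⟩ := H
  obtain ⟨N', _, _, _, _, _, h0', h1', h2'⟩ := H'
  refine ⟨N × N', inferInstance, inferInstance, inferInstance, inferInstance, inferInstance,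
    semisimple_prod, ?_, ?_⟩
  · intro x hx
    exact Prod.ext (h1 x.1 fun g hg => congrArg Prod.fst (hx g hg))
      (h1' x.2 fun g hg => congrArg Prod.snd (hx g hg))
  · intro g
    rw [act_prod, LinearMap.trace_prodMap', h2, h2']

theorem Art.zero : Art U fun _ => 0 := by
  refine ⟨PUnit, inferInstance, inferInstance, inferInstance, inferInstance, inferInstance,
    fun g hg x => rfl, fun g => ?_⟩
  have : act PUnit (MonoidAlgebra.of ℂ G g) = 0 := Subsingleton.elim _ _
  rw [this, map_zero]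

theorem Free.zero : Free U fun _ => 0 := by
  refine ⟨PUnit, inferInstance, inferInstance, inferInstance, inferInstance, inferInstance,
    semisimple_punit, fun x _ => rfl, fun g => ?_⟩
  have : act PUnit (MonoidAlgebra.of ℂ G g) = 0 := Subsingleton.elim _ _
  rw [this, map_zero]

/-- **Traces and semisimplification** -/
theorem decomp [hU : U.Normal] (n : ℕ) : ∀ (M : Type) [AddCommGroup M] [Module ℂ M]
    [Module (MonoidAlgebra ℂ G) M] [IsScalarTower ℂ (MonoidAlgebra ℂ G) M]
    [FiniteDimensional ℂ M], finrank ℂ M = n → ∃ h₁ h₂ : G → ℂ, Art U h₁ ∧ Free U h₂ ∧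
      ∀ g, LinearMap.trace ℂ M (act M (MonoidAlgebra.of ℂ G g)) = h₁ g + h₂ g := by
  induction n using Nat.strong_induction_on with
  | _ n ih =>
  intro M _ _ _ _ _ hn
  by_cases hE : ∃ E : Submodule (MonoidAlgebra ℂ G) M, E ≠ ⊥ ∧ E ≠ ⊤
  · obtain ⟨E, hE1, hE2⟩ := hE
    have hfE : FiniteDimensional ℂ E :=
      FiniteDimensional.of_injective (E.subtype.restrictScalars ℂ) E.injective_subtype
    have hfQ : FiniteDimensional ℂ (M ⧸ E) :=
      Module.Finite.of_surjective (E.mkQ.restrictScalars ℂ) E.mkQ_surjective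
    let E₀ : Submodule ℂ M := E.restrictScalars ℂ
    let eE : E₀ ≃ₗ[ℂ] E := (Submodule.restrictScalarsEquiv ℂ (MonoidAlgebra ℂ G) M E).restrictScalars ℂ
    let eQ : (M ⧸ E₀) ≃ₗ[ℂ] (M ⧸ E) := Submodule.Quotient.restrictScalarsEquiv ℂ E
    have hE0 : E₀ ≠ ⊥ := fun h => hE1 ((Submodule.restrictScalars_eq_bot_iff _ _ _).1 h)
    have hE0' : E₀ ≠ ⊤ := fun h => hE2 ((Submodule.restrictScalars_eq_top_iff _ _ _).1 h)
    have hd := Submodule.finrank_quotient_add_finrank E₀
    have hd1 := Submodule.finrank_lt hE0'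
    have hd2 : 0 < finrank ℂ E₀ := by
      rw [Nat.pos_iff_ne_zero]
      intro h0
      exact hE0 (Submodule.finrank_eq_zero.1 h0)
    rw [eE.finrank_eq, eQ.finrank_eq, hn] at hd
    rw [eE.finrank_eq] at hd2
    obtain ⟨h₁, h₂, hA, hF, ht⟩ := ih (finrank ℂ E) (by
      rw [eE.finrank_eq, hn] at hd1
      exact hd1) E rfl
    obtain ⟨h₁', h₂', hA', hF', ht'⟩ := ih (finrank ℂ (M ⧸ E)) (by omega) (M ⧸ E) rfl
    refine ⟨_, _, hA.add hA', hF.add hF', fun g => ?_⟩
    set a := MonoidAlgebra.of ℂ G g with ha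
    have hst : E₀ ≤ E₀.comap (act M a) := fun x hx => E.smul_mem a hx
    have h3 : LinearMap.trace ℂ M (act M a) = LinearMap.trace ℂ E₀ ((act M a).restrict hst) +
        LinearMap.trace ℂ (M ⧸ E₀) (E₀.mapQ E₀ (act M a) hst) := by
      have h4 := Pool.Agent.D0H32.EF.rts_sum (RingHom.id ℂ) (act M a)
      have h5 := Pool.Agent.D0H32.EF.rts_sum (RingHom.id ℂ) ((act M a).restrict hst)
      have h6 := Pool.Agent.D0H32.EF.rts_sum (RingHom.id ℂ) (E₀.mapQ E₀ (act M a) hst)
      rw [Pool.Agent.D0H32.EF.rts_mul (RingHom.id ℂ) hst, Multiset.sum_add, ← h5, ← h6] at h4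
      exact h4
    have h7 : LinearMap.trace ℂ E₀ ((act M a).restrict hst) = LinearMap.trace ℂ E (act E a) := by
      rw [← LinearMap.trace_conj' _ eE]
      congr 1
    have h8 : LinearMap.trace ℂ (M ⧸ E₀) (E₀.mapQ E₀ (act M a) hst) =
        LinearMap.trace ℂ (M ⧸ E) (act (M ⧸ E) a) := by
      rw [← LinearMap.trace_conj' _ eQ]
      congr 1
      refine LinearMap.ext fun x => ?_
      obtain ⟨x, rfl⟩ := E.mkQ_surjective x
      rfl
    rw [h3, h7, h8, ht, ht']
    ring
  · by_cases hT : ∀ g ∈ U, ∀ x : M, MonoidAlgebra.of ℂ G g • x = x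
    · exact ⟨_, _, ⟨M, inferInstance, inferInstance, inferInstance, inferInstance, inferInstance,
        hT, fun g => rfl⟩, Free.zero, fun g => by rw [add_zero]⟩
    · have hbt : ∀ E : Submodule (MonoidAlgebra ℂ G) M, E = ⊥ ∨ E = ⊤ := by
        intro E
        by_contra h
        push Not at h
        exact hE ⟨E, h⟩
      have hnt : Nontrivial M := by
        by_contra h
        rw [not_nontrivial_iff_subsingleton] at h
        exact hT fun g _ x => Subsingleton.elim _ _
      have hs : IsSimpleModule (MonoidAlgebra ℂ G) M := { eq_bot_or_eq_top := hbt }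
      refine ⟨_, _, Art.zero, ⟨M, inferInstance, inferInstance, inferInstance, inferInstance,
        inferInstance, inferInstance, ?_, fun g => rfl⟩, fun g => by rw [zero_add]⟩
      intro x hx
      rcases hbt (fixed U M) with h | h
      · have h1 : x ∈ fixed U M := hx
        rw [h] at h1
        exact (Submodule.mem_bot _).1 h1
      · exfalso
        apply hT
        intro g hg y
        have h1 : y ∈ fixed U M := by
          rw [h]
          exact Submodule.mem_top
        exact h1 g hg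

variable (U) in
/-- the left ideal which is generated by the elements `(u - 1) g` -/
noncomputable def aug : Ideal (MonoidAlgebra ℂ G) :=
  Ideal.span {x | ∃ u ∈ U, ∃ g, x = (MonoidAlgebra.of ℂ G u - 1) * MonoidAlgebra.of ℂ G g}

theorem sub_one_mul_mem {u : G} (hu : u ∈ U) (x : MonoidAlgebra ℂ G) :
    (MonoidAlgebra.of ℂ G u - 1) * x ∈ aug U := by
  induction x using MonoidAlgebra.induction_on with
  | of g => exact Ideal.subset_span ⟨u, hu, g, rfl⟩
  | add r s hr hs =>
    rw [mul_add]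
    exact (aug U).add_mem hr hs
  | smul c r hr =>
    rw [mul_smul_comm, Algebra.smul_def]
    exact (aug U).mul_mem_left _ hr

/-- An element of the ideal which acts as the identity. -/
theorem exists_unit (P : Type) [AddCommGroup P] [Module ℂ P] [Module (MonoidAlgebra ℂ G) P]
    [IsScalarTower ℂ (MonoidAlgebra ℂ G) P] [FiniteDimensional ℂ P]
    [IsSemisimpleModule (MonoidAlgebra ℂ G) P]
    (hinv : ∀ x : P, (∀ g ∈ U, MonoidAlgebra.of ℂ G g • x = x) → x = 0) :
    ∃ j ∈ aug U, ∀ x : P, j • x = x := by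
  classical
  let b := Module.finBasis ℂ P
  let β : Fin (finrank ℂ P) → P := fun i => b i
  let φ : MonoidAlgebra ℂ G →ₗ[MonoidAlgebra ℂ G] (Fin (finrank ℂ P) → P) :=
    LinearMap.toSpanSingleton (MonoidAlgebra ℂ G) _ β
  have hφ : ∀ a, φ a = a • β := fun a => rfl
  obtain ⟨C, hC⟩ := exists_isCompl (Submodule.map φ (aug U))
  have h1 : β ∈ Submodule.map φ (aug U) ⊔ C := by
    rw [hC.sup_eq_top]
    exact Submodule.mem_top
  obtain ⟨s, hs, t, ht, hst⟩ := Submodule.mem_sup.1 h1
  have ht0 : t = 0 := by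
    funext i
    apply hinv
    intro u hu
    have h2 : (MonoidAlgebra.of ℂ G u - 1) • β ∈ Submodule.map φ (aug U) := by
      refine ⟨(MonoidAlgebra.of ℂ G u - 1) * 1, sub_one_mul_mem hu 1, ?_⟩
      rw [mul_one, hφ]
    have h3 : (MonoidAlgebra.of ℂ G u - 1) • t ∈ Submodule.map φ (aug U) := by
      have h4 : (MonoidAlgebra.of ℂ G u - 1) • t = (MonoidAlgebra.of ℂ G u - 1) • β -
          (MonoidAlgebra.of ℂ G u - 1) • s := by
        rw [← hst, smul_add, add_sub_cancel_left]
      rw [h4]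
      exact Submodule.sub_mem _ h2 (Submodule.smul_mem _ _ hs)
    have h5 : (MonoidAlgebra.of ℂ G u - 1) • t ∈ C := C.smul_mem _ ht
    have h6 : (MonoidAlgebra.of ℂ G u - 1) • t = 0 :=
      (Submodule.disjoint_def.1 hC.disjoint) _ h3 h5
    rw [sub_smul, one_smul, sub_eq_zero] at h6
    exact congrFun h6 i
  rw [ht0, add_zero] at hst
  obtain ⟨j, hj, hjs⟩ := hs
  refine ⟨j, hj, fun x => ?_⟩
  have h7 : act P j = LinearMap.id := by
    apply b.ext
    intro i
    have h8 := congrFun (hjs.trans hst) i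
    exact h8
  exact LinearMap.congr_fun h7 x

theorem free_zero [hU : U.Normal] {h h' : G → ℂ} (H : Free U h) (H' : Free U h')
    (hc : ∀ g, ∀ u ∈ U, h (g * u) - h' (g * u) = h g - h' g) (g : G) : h g = h' g := by
  obtain ⟨N, _, _, _, _, _, h0, h1, h2⟩ := H
  obtain ⟨N', _, _, _, _, _, h0', h1', h2'⟩ := H'
  have : IsSemisimpleModule (MonoidAlgebra ℂ G) (N × N') := semisimple_prod
  obtain ⟨j, hj, hj1⟩ := exists_unit (U := U) (N × N') (by
    intro x hx
    exact Prod.ext (h1 x.1 fun g hg => congrArg Prod.fst (hx g hg))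
      (h1' x.2 fun g hg => congrArg Prod.snd (hx g hg)))
  have hN : ∀ x : N, j • x = x := fun x => congrArg Prod.fst (hj1 (x, 0))
  have hN' : ∀ x : N', j • x = x := fun x => congrArg Prod.snd (hj1 (0, x))
  let F : MonoidAlgebra ℂ G →ₗ[ℂ] ℂ :=
    (LinearMap.trace ℂ N ∘ₗ (Algebra.lsmul ℂ ℂ N).toLinearMap) -
      (LinearMap.trace ℂ N' ∘ₗ (Algebra.lsmul ℂ ℂ N').toLinearMap)
  have hF : ∀ a, F a = LinearMap.trace ℂ N (act N a) - LinearMap.trace ℂ N' (act N' a) :=
    fun a => rfl
  have hFof : ∀ k : G, F (MonoidAlgebra.of ℂ G k) = h k - h' k := by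
    intro k
    rw [hF, h2, h2']
  have hker : ∀ x ∈ aug U, ∀ a, F (a * x * MonoidAlgebra.of ℂ G g) = 0 := by
    intro x hx
    induction hx using Submodule.span_induction with
    | mem x hx =>
      obtain ⟨u, hu, k, rfl⟩ := hx
      intro a
      induction a using MonoidAlgebra.induction_on with
      | of l =>
        have h2 : MonoidAlgebra.of ℂ G l * ((MonoidAlgebra.of ℂ G u - 1) * MonoidAlgebra.of ℂ G k) *
            MonoidAlgebra.of ℂ G g = MonoidAlgebra.of ℂ G (l * u * k * g) -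
            MonoidAlgebra.of ℂ G (l * k * g) := by
          simp only [map_mul]
          noncomm_ring
        rw [h2, map_sub, hFof, hFof]
        have h3 : l * u * k * g = (l * k * g) * ((k * g)⁻¹ * u * (k * g)) := by group
        have h4 := hU.conj_mem u hu (k * g)⁻¹
        rw [inv_inv] at h4
        rw [h3, hc _ _ h4, sub_self]
      | add r s hr hs => rw [add_mul, add_mul, map_add, hr, hs, add_zero]
      | smul c r hr => rw [smul_mul_assoc, smul_mul_assoc, map_smul, hr, smul_zero]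
    | zero =>
      intro a
      rw [mul_zero, zero_mul, map_zero]
    | add x y _ _ hx hy =>
      intro a
      rw [mul_add, add_mul, map_add, hx, hy, add_zero]
    | smul r x _ hx =>
      intro a
      rw [smul_eq_mul, ← mul_assoc, hx]
  have h3 := hker j hj 1
  rw [one_mul, hF] at h3
  have h4 : act N (j * MonoidAlgebra.of ℂ G g) = act N (MonoidAlgebra.of ℂ G g) := by
    refine LinearMap.ext fun x => ?_
    change (j * MonoidAlgebra.of ℂ G g) • x = MonoidAlgebra.of ℂ G g • x
    rw [mul_smul, hN]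
  have h5 : act N' (j * MonoidAlgebra.of ℂ G g) = act N' (MonoidAlgebra.of ℂ G g) := by
    refine LinearMap.ext fun x => ?_
    change (j * MonoidAlgebra.of ℂ G g) • x = MonoidAlgebra.of ℂ G g • x
    rw [mul_smul, hN']
  rw [h4, h5, h2, h2'] at h3
  exact sub_eq_zero.1 h3

theorem Art.const {h : G → ℂ} (H : Art U h) (g : G) {u : G} (hu : u ∈ U) : h (g * u) = h g := by
  obtain ⟨N, _, _, _, _, _, h1, h2⟩ := H
  rw [← h2, ← h2]
  congr 1
  refine LinearMap.ext fun x => ?_
  change MonoidAlgebra.of ℂ G (g * u) • x = MonoidAlgebra.of ℂ G g • x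
  rw [map_mul, mul_smul, h1 u hu]

theorem Art.matrix {h : G → ℂ} (H : Art U h) : ∃ (r : ℕ) (R : G →* GL (Fin r) ℂ),
    (∀ u ∈ U, R u = 1) ∧ ∀ g, (R g : Matrix (Fin r) (Fin r) ℂ).trace = h g := by
  classical
  obtain ⟨N, _, _, _, _, _, h1, h2⟩ := H
  let b := Module.finBasis ℂ N
  let X : G →* Matrix (Fin (finrank ℂ N)) (Fin (finrank ℂ N)) ℂ :=
    (((LinearMap.toMatrixAlgEquiv b : (N →ₗ[ℂ] N) →ₐ[ℂ] _).comp
      (Algebra.lsmul ℂ ℂ N : MonoidAlgebra ℂ G →ₐ[ℂ] End ℂ N) :
        MonoidAlgebra ℂ G →ₐ[ℂ] Matrix (Fin (finrank ℂ N)) (Fin (finrank ℂ N)) ℂ) :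
        MonoidAlgebra ℂ G →* Matrix (Fin (finrank ℂ N)) (Fin (finrank ℂ N)) ℂ).comp
      (MonoidAlgebra.of ℂ G)
  have hX : ∀ g, X g = LinearMap.toMatrix b b (act N (MonoidAlgebra.of ℂ G g)) := fun g => rfl
  refine ⟨finrank ℂ N, X.toHomUnits, ?_, ?_⟩
  · intro u hu
    apply Units.ext
    rw [MonoidHom.coe_toHomUnits, hX, Units.val_one]
    have h3 : act N (MonoidAlgebra.of ℂ G u) = LinearMap.id :=
      LinearMap.ext fun x => h1 u hu x
    rw [h3, LinearMap.toMatrix_id]
  · intro g
    rw [MonoidHom.coe_toHomUnits, hX, ← h2, LinearMap.trace_eq_matrix_trace ℂ b]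

theorem trace_Md {n : ℕ} (X : G →* Matrix (Fin n) (Fin n) ℂ) (g : G) :
    LinearMap.trace ℂ (Md X) (act (Md X) (MonoidAlgebra.of ℂ G g)) = (X g).trace := by
  rw [act_eq, al_of]
  exact Matrix.trace_toLin'_eq (X g)

variable (U) in
/-- **Differences of characters which are constant on the cosets of `U`.** -/
theorem virt [hU : U.Normal] {n m : ℕ} (X : G →* Matrix (Fin n) (Fin n) ℂ)
    (Y : G →* Matrix (Fin m) (Fin m) ℂ)
    (hc : ∀ g, ∀ u ∈ U, (X (g * u)).trace - (Y (g * u)).trace = (X g).trace - (Y g).trace) :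
    ∃ (r s : ℕ) (R : G →* GL (Fin r) ℂ) (R' : G →* GL (Fin s) ℂ),
      (∀ u ∈ U, R u = 1) ∧ (∀ u ∈ U, R' u = 1) ∧
      ∀ g, (X g).trace - (Y g).trace =
        (R g : Matrix (Fin r) (Fin r) ℂ).trace - (R' g : Matrix (Fin s) (Fin s) ℂ).trace := by
  obtain ⟨h₁, h₂, hA, hF, ht⟩ := decomp (U := U) _ (Md X) rfl
  obtain ⟨h₁', h₂', hA', hF', ht'⟩ := decomp (U := U) _ (Md Y) rfl
  simp only [trace_Md] at ht ht'
  have h3 : ∀ g, h₂ g = h₂' g := free_zero hF hF' (by
    intro g u hu
    have h4 := hc g u hu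
    rw [ht, ht, ht', ht', hA.const g hu, hA'.const g hu] at h4
    linear_combination h4)
  obtain ⟨r, R, hR, hRt⟩ := hA.matrix
  obtain ⟨s, R', hR', hRt'⟩ := hA'.matrix
  refine ⟨r, s, R, R', hR, hR', fun g => ?_⟩
  rw [ht, ht', hRt, hRt', h3]
  ring

end Pool.Agent.D0H78.QF
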